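import Mathlib
import Pool.Agent.Lib.MP_af06f6_co.X.Stm

open Set

namespace Pool.Agent.Lib.MP_af06f6_co

theorem X0_tl_pos {v : E3} (h : 1 < ‖v‖) : 0 < tl v := by
  unfold tl
  apply Real.sqrt_pos.mpr
  nlinarith

theorem X0_AdjSymm {A B : Finset E3} {f g : E3} (h : Adj A B f g) : Adj A B g f := by
  obtain ⟨hf, hg, hne, v, hv, w, hw, hvw, h1, h2, h3, h4⟩ := h
  exact ⟨hg, hf, fun e => hne e.symm, v, hv, w, hw, hvw, h2, h1, h4, h3⟩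

/-- the computation -/
theorem X0_calc {a b s t ξ : ℝ} (ha : 0 < a) (hb : 0 < b) (hs : 0 < s) (hsb : s ≤ b)
    (ht : t = a * b / (a + b)) (hξ : ξ ^ 2 ≤ 1 / 4)
    (h : t / s = ξ ^ 2 + t ^ 2 - b * a / (a + b) ^ 2) :
    3 / 4 ≤ t ^ 2 + (b / (a + b)) ^ 2 := by
  have hab : 0 < a + b := by positivity
  have htpos : 0 < t := by rw [ht]; positivity
  have h1 : t / b ≤ t / s := div_le_div_of_nonneg_left htpos.le hs hsb
  have h2 : t / b = 1 - b / (a + b) := by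
    rw [ht]; field_simp; ring
  have h3 : b * a / (a + b) ^ 2 = b / (a + b) - (b / (a + b)) ^ 2 := by
    field_simp; ring
  rw [h3] at h
  rw [h2] at h1
  linarith

theorem X0_aux (hX1 : Stm_X1) (hD1 : Stm_D1) (hD2 : Stm_D2) (V F : Finset E3) (hM : Mid V F)
    (hC : Cfg V F (fun v f => inner ℝ v f = (1 : ℝ)) hx hx) (f₀ f₁ : E3) (hadj : Adj F V f₀ f₁)
    (hex : ExactAt V F (fun v f => inner ℝ v f = (1 : ℝ)) f₀ f₁) :
    ∃ g, Adj F V g f₀ ∧ Adj F V g f₁ ∧ ∃ ξ : ℝ, ξ ^ 2 ≤ 1 / 4 ∧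
      (tl f₀ * tl f₁ / (tl f₀ + tl f₁)) / tl g = ξ ^ 2 +
        (tl f₀ * tl f₁ / (tl f₀ + tl f₁)) ^ 2 - tl f₁ * tl f₀ / (tl f₀ + tl f₁) ^ 2 := by
  obtain ⟨T, e, d, hco⟩ := hD1 V F hM f₀ f₁ hadj
  obtain ⟨w, x0, gs, A, C, C', hch⟩ := hX1 V F hM hC f₀ f₁ T e d hco hadj hex
  have h0 := hch.x0pos
  have h1 := hch.x0lt
  set i : ℕ := ⌊x0 + 1 / 2⌋₊ with hi
  have hnn : (0 : ℝ) ≤ x0 + 1 / 2 := by linarith
  have hi1 : (i : ℝ) ≤ x0 + 1 / 2 := Nat.floor_le hnn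
  have hi2 : x0 + 1 / 2 < (i : ℝ) + 1 := Nat.lt_floor_add_one _
  have hiw : i ≤ w := by
    have : (i : ℝ) < (w : ℝ) + 1 := by linarith
    have h3 : i < w + 1 := by exact_mod_cast this
    omega
  refine ⟨gs i, hch.adj₀ i hiw, hch.adj₁ i hiw, xi d (gs i), ?_, ?_⟩
  · rw [hch.pos i hiw]
    nlinarith
  · exact (hD2 V F hM f₀ f₁ T e d hco (gs i) (hch.adj₀ i hiw) (hch.adj₁ i hiw)).2.2

theorem pf_X0 (hX1 : Stm_X1) (hD1 : Stm_D1) (hD2 : Stm_D2) : Stm_X0 := by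
  intro V F hM hC f₀ f₁ hadj hex hmax
  have hp0 : 0 < tl f₀ := X0_tl_pos (hM.one_lt_F f₀ hadj.1)
  have hp1 : 0 < tl f₁ := X0_tl_pos (hM.one_lt_F f₁ hadj.2.1)
  unfold hh yy
  rcases hex with hex | hex
  · obtain ⟨g, hg0, hg1, ξ, hξ, hq⟩ := X0_aux hX1 hD1 hD2 V F hM hC f₀ f₁ hadj hex
    exact X0_calc hp0 hp1 (X0_tl_pos (hM.one_lt_F g hg0.1)) (hmax g hg0.1 hg0.2.2.1) rfl hξ hq
  · obtain ⟨g, hg1, hg0, ξ, hξ, hq⟩ :=
      X0_aux hX1 hD1 hD2 V F hM hC f₁ f₀ (X0_AdjSymm hadj) hex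
    refine X0_calc hp0 hp1 (X0_tl_pos (hM.one_lt_F g hg0.1)) (hmax g hg0.1 hg0.2.2.1) rfl hξ ?_
    rw [show tl f₀ * tl f₁ / (tl f₀ + tl f₁) = tl f₁ * tl f₀ / (tl f₁ + tl f₀) by
      rw [mul_comm, add_comm]]
    rw [hq]
    rw [show tl f₁ * tl f₀ / (tl f₀ + tl f₁) ^ 2 = tl f₀ * tl f₁ / (tl f₁ + tl f₀) ^ 2 by
      rw [mul_comm, add_comm]]

/-- `tl` in terms of `hx` -/
theorem X0_tl_hx {v : E3} (h : 1 < ‖v‖) :
    0 < hx v ∧ hx v < 1 ∧ tl v * (1 - hx v ^ 2) = 2 * hx v := by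
  have hn : 0 < ‖v‖ + 1 := by linarith
  have hm : 0 < ‖v‖ - 1 := by linarith
  have hq : 0 < (‖v‖ - 1) / (‖v‖ + 1) := by positivity
  have hsq : hx v ^ 2 = (‖v‖ - 1) / (‖v‖ + 1) := by
    unfold hx; exact Real.sq_sqrt hq.le
  have hpos : 0 < hx v := by unfold hx; exact Real.sqrt_pos.mpr hq
  have hlt : hx v < 1 := by
    have h2 : hx v ^ 2 < 1 := by
      rw [hsq, div_lt_one hn]; linarith
    nlinarith
  refine ⟨hpos, hlt, ?_⟩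
  have h1 : 1 - hx v ^ 2 = 2 / (‖v‖ + 1) := by
    rw [hsq]; field_simp; ring
  have h2 : tl v = hx v * (‖v‖ + 1) := by
    have h3 : tl v ^ 2 = (hx v * (‖v‖ + 1)) ^ 2 := by
      rw [mul_pow, hsq]
      unfold tl
      rw [Real.sq_sqrt (by nlinarith)]
      field_simp
      ring
    have h4 : 0 ≤ tl v := Real.sqrt_nonneg _
    have h5 : 0 ≤ hx v * (‖v‖ + 1) := by positivity
    exact (pow_left_inj₀ h4 h5 (by norm_num)).mp h3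
  rw [h1, h2]
  field_simp

/-- `1/tl C ≤ (1 - xm²)/(2 xm)` -/
theorem X0_inv {v : E3} (h : 1 < ‖v‖) {xm : ℝ} (h0 : 0 < xm) (hle : xm ≤ hx v) :
    1 / tl v ≤ (1 - xm ^ 2) / (2 * xm) := by
  obtain ⟨hp, hl, ht⟩ := X0_tl_hx h
  have htl := X0_tl_pos h
  rw [div_le_div_iff₀ htl (by positivity)]
  have h2 : 1 - hx v ^ 2 ≤ 1 - xm ^ 2 := by nlinarith
  have h3 : 2 * hx v ≤ tl v * (1 - xm ^ 2) := by
    rw [← ht]
    exact mul_le_mul_of_nonneg_left h2 htl.le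
  linarith

theorem X0_sq {ξ h b1 b2 B : ℝ} (hh : 0 < h) (h1 : ξ ≤ h * b1) (h2 : -(h * b2) ≤ ξ)
    (hb1 : b1 ≤ B) (hb2 : b2 ≤ B) : ξ ^ 2 ≤ h ^ 2 * B ^ 2 := by
  have h3 : ξ ≤ h * B := h1.trans (mul_le_mul_of_nonneg_left hb1 hh.le)
  have h4 : -(h * B) ≤ ξ := by
    have := mul_le_mul_of_nonneg_left hb2 hh.le
    linarith
  rw [← mul_pow]
  exact sq_le_sq' h4 h3

theorem pf_D5 (hD1 : Stm_D1) (hD2 : Stm_D2) (hD4 : Stm_D4) : Stm_D5 := by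
  intro V F hM f₀ f₁ hadj xm hxm0 hxm1 hmin g hg0 hg1
  obtain ⟨T, e, d, hco⟩ := hD1 V F hM f₀ f₁ hadj
  obtain ⟨C, hC, C', hC', hne, hCe, hCe', hc0, hc1, hc0', hc1', hall⟩ :=
    hD4 V F hM f₀ f₁ T e d hco hadj
  have hd2 := (hD2 V F hM f₀ f₁ T e d hco g hg0 hg1).2.2
  obtain ⟨hu, hl, -, -⟩ := hall g hg0 hg1
  have ha : 0 < tl f₀ := X0_tl_pos (hM.one_lt_F f₀ hadj.1)
  have hb : 0 < tl f₁ := X0_tl_pos (hM.one_lt_F f₁ hadj.2.1)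
  have hs : 0 < tl g := X0_tl_pos (hM.one_lt_F g hg0.1)
  have hcc : 0 < tl C := X0_tl_pos (hM.one_lt_V C hC)
  have hcc' : 0 < tl C' := X0_tl_pos (hM.one_lt_V C' hC')
  have i1 := X0_inv (hM.one_lt_V C hC) hxm0 (hmin C hC hc0 hc1)
  have i2 := X0_inv (hM.one_lt_V C' hC') hxm0 (hmin C' hC' hc0' hc1')
  set a := tl f₀ with hadef
  set b := tl f₁ with hbdef
  set s := tl g with hsdef
  set ξ := inner ℝ g d / (2 * s) with hξdef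
  have hab : 0 < a + b := by positivity
  have hh : 0 < a * b / (a + b) := by positivity
  have hB : 0 ≤ (1 - xm ^ 2) / (2 * xm) := by
    apply div_nonneg
    · nlinarith
    · positivity
  rw [div_eq_mul_one_div (a * b / (a + b)) (tl C)] at hu
  rw [div_eq_mul_one_div (a * b / (a + b)) (tl C')] at hl
  have hsq := X0_sq hh hu hl i1 i2
  set B := (1 - xm ^ 2) / (2 * xm) with hBdef
  have hBB : B ^ 2 + 1 = (1 + xm ^ 2) ^ 2 / (4 * xm ^ 2) := by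
    rw [hBdef]; field_simp; ring
  rw [← hBB]
  have key : (a * b / (a + b)) / s ≤
      (a * b / (a + b)) ^ 2 * B ^ 2 + (a * b / (a + b)) ^ 2 - b * a / (a + b) ^ 2 := by
    rw [hd2]; linarith
  have e1 : 1 / s * (1 / a + 1 / b) = ((a * b / (a + b)) / s) / (a * b / (a + b)) ^ 2 := by
    field_simp
    ring
  have e2 : B ^ 2 + 1 - 1 / (a * b) =
      ((a * b / (a + b)) ^ 2 * B ^ 2 + (a * b / (a + b)) ^ 2 - b * a / (a + b) ^ 2) /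
        (a * b / (a + b)) ^ 2 := by
    field_simp
  rw [e1, e2]
  exact div_le_div_of_nonneg_right key (by positivity)

end Pool.Agent.Lib.MP_af06f6_co
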