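import Mathlib
import Pool.Agent.Lib.MP_af06f6_co.X.Stm
import Pool.Agent.Lib.MP_af06f6_co.G.Swap

/-! Pieces X2, X3: vertices of the chain faces. -/

open Set

namespace Pool.Agent.Lib.MP_af06f6_co

private theorem x23_decomp {T e d : E3} (nT : ‖T‖ = 1) (ne : ‖e‖ = 1) (nd : ‖d‖ = 1)
    (Te : inner ℝ T e = (0 : ℝ)) (Td : inner ℝ T d = (0 : ℝ)) (ed : inner ℝ e d = (0 : ℝ)) (x : E3) :
    x = (inner ℝ x T : ℝ) • T + (inner ℝ x e : ℝ) • e + (inner ℝ x d : ℝ) • d := by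
  have hon : Orthonormal ℝ ![T, e, d] := by
    constructor
    · intro i
      fin_cases i
      · exact nT
      · exact ne
      · exact nd
    · intro i j hij
      fin_cases i <;> fin_cases j
      · exact absurd rfl hij
      · exact Te
      · exact Td
      · show inner ℝ e T = (0 : ℝ)
        rw [real_inner_comm]
        exact Te
      · exact absurd rfl hij
      · exact ed
      · show inner ℝ d T = (0 : ℝ)
        rw [real_inner_comm]
        exact Td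
      · show inner ℝ d e = (0 : ℝ)
        rw [real_inner_comm]
        exact ed
      · exact absurd rfl hij
  have hcard : Fintype.card (Fin 3) = Module.finrank ℝ E3 := by simp
  have hsp : (⊤ : Submodule ℝ E3) ≤ Submodule.span ℝ (Set.range ![T, e, d]) :=
    (hon.linearIndependent.span_eq_top_of_card_eq_finrank hcard).ge
  let b : OrthonormalBasis (Fin 3) ℝ E3 := OrthonormalBasis.mk hon hsp
  have h := b.sum_repr' x
  have hb : (b : Fin 3 → E3) = ![T, e, d] := OrthonormalBasis.coe_mk hon hsp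
  rw [hb, Fin.sum_univ_three] at h
  have h2 : (inner ℝ T x : ℝ) • T + (inner ℝ e x : ℝ) • e + (inner ℝ d x : ℝ) • d = x := h
  rw [real_inner_comm T x, real_inner_comm e x, real_inner_comm d x]
  exact h2.symm

private theorem x23_inner {T e d : E3} (nT : ‖T‖ = 1) (ne : ‖e‖ = 1) (nd : ‖d‖ = 1)
    (Te : inner ℝ T e = (0 : ℝ)) (Td : inner ℝ T d = (0 : ℝ)) (ed : inner ℝ e d = (0 : ℝ)) (v g : E3) :
    (inner ℝ v g : ℝ) = inner ℝ v T * inner ℝ g T + inner ℝ v e * inner ℝ g e + inner ℝ v d * inner ℝ g d := by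
  conv_lhs => rw [x23_decomp nT ne nd Te Td ed g]
  rw [inner_add_right, inner_add_right, inner_smul_right, inner_smul_right, inner_smul_right]
  ring

/-- the quadratic -/
private noncomputable def x23_Q (a b c h y ξ : ℝ) : ℝ :=
  (a - 1) * (ξ ^ 2 + h ^ 2 - y * (1 - y)) - 2 * h ^ 2 * a - h * b * (1 - 2 * y) + 2 * c * h * ξ

private theorem x23_key (hD : Stm_D2) {V F : Finset E3} (hM : Mid V F) {f₀ f₁ T e d : E3}
    (hC : Coord V F f₀ f₁ T e d) (v : E3) {g : E3} (h0 : Adj F V g f₀) (h1 : Adj F V g f₁) :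
    hh f₀ f₁ * ((inner ℝ v g : ℝ) - 1) = tl g *
      x23_Q (inner ℝ v T) (inner ℝ v e) (inner ℝ v d) (hh f₀ f₁) (yy f₀ f₁) (xi d g) := by
  obtain ⟨e1, e2, e3⟩ := hD V F hM f₀ f₁ T e d hC g h0 h1
  have s : 0 < tl g := tl_pos (hM.one_lt_F _ h0.1)
  have s0 : 0 < tl f₀ := tl_pos (hM.one_lt_F _ h0.2.1)
  have s1 : 0 < tl f₁ := tl_pos (hM.one_lt_F _ h1.2.1)
  have hin := x23_inner hC.nT hC.ne hC.nd hC.Te hC.Td hC.ed v g
  have hgd : (inner ℝ g d : ℝ) = 2 * tl g * xi d g := by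
    unfold xi
    field_simp
  have hk : (tl f₀ - tl f₁) / (tl f₀ + tl f₁) = 1 - 2 * yy f₀ f₁ := by
    unfold yy
    field_simp
    ring
  have hyy : tl f₁ * tl f₀ / (tl f₀ + tl f₁) ^ 2 = yy f₀ f₁ * (1 - yy f₀ f₁) := by
    unfold yy
    field_simp
    ring
  have hhe : tl f₀ * tl f₁ / (tl f₀ + tl f₁) = hh f₀ f₁ := rfl
  have hxe : inner ℝ g d / (2 * tl g) = xi d g := rfl
  rw [hhe] at e1 e3
  rw [hk] at e2
  rw [hyy, hxe] at e3
  have e4 : hh f₀ f₁ = tl g * (xi d g ^ 2 + hh f₀ f₁ ^ 2 - yy f₀ f₁ * (1 - yy f₀ f₁)) := by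
    rw [← e3]
    field_simp
  rw [hin, e1, e2, hgd]
  unfold x23_Q
  generalize hh f₀ f₁ = h at *
  generalize yy f₀ f₁ = y at *
  generalize xi d g = ξ at *
  generalize (inner ℝ v T : ℝ) = a at *
  generalize (inner ℝ v e : ℝ) = b at *
  generalize (inner ℝ v d : ℝ) = c at *
  generalize tl g = t at *
  linear_combination (a - 1) * e4

private theorem x23_pos {V F : Finset E3} (hM : Mid V F) {f₀ f₁ : E3} (h : Adj F V f₀ f₁) :
    0 < tl f₀ ∧ 0 < tl f₁ ∧ 0 < hh f₀ f₁ ∧ 0 < yy f₀ f₁ ∧ yy f₀ f₁ < 1 ∧ tl f₀ * yy f₀ f₁ = hh f₀ f₁ ∧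
      tl f₁ * (1 - yy f₀ f₁) = hh f₀ f₁ := by
  have s0 : 0 < tl f₀ := tl_pos (hM.one_lt_F _ h.1)
  have s1 : 0 < tl f₁ := tl_pos (hM.one_lt_F _ h.2.1)
  refine ⟨s0, s1, ?_, ?_, ?_, ?_, ?_⟩
  · unfold hh
    positivity
  · unfold yy
    positivity
  · unfold yy
    rw [div_lt_one (by positivity)]
    linarith
  · unfold yy hh
    ring
  · unfold yy hh
    field_simp
    ring

private theorem x23_le {V F : Finset E3} (hM : Mid V F) {v f : E3} (hv : v ∈ V) (hf : f ∈ F) :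
    (inner ℝ v f : ℝ) ≤ 1 :=
  (hM.polV v).mp (subset_convexHull ℝ _ hv) f hf

private theorem x23_ab {V F : Finset E3} {f₀ f₁ T e d : E3}
    (hC : Coord V F f₀ f₁ T e d) (v : E3) :
    (inner ℝ v f₀ : ℝ) = inner ℝ v T + tl f₀ * inner ℝ v e ∧
    (inner ℝ v f₁ : ℝ) = inner ℝ v T - tl f₁ * inner ℝ v e := by
  constructor
  · conv_lhs => rw [hC.h₀]
    rw [inner_add_right, inner_smul_right]
  · conv_lhs => rw [hC.h₁]
    rw [inner_sub_right, inner_smul_right]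

private theorem x23_lt {V F : Finset E3} (hM : Mid V F) {f₀ f₁ T e d : E3}
    (hC : Coord V F f₀ f₁ T e d) (h : Adj F V f₀ f₁) {v : E3} (hv : v ∈ V)
    (hn : ¬ (inner ℝ v f₀ = (1 : ℝ) ∧ inner ℝ v f₁ = (1 : ℝ))) : (inner ℝ v T : ℝ) < 1 := by
  obtain ⟨s0, s1, -⟩ := x23_pos hM h
  obtain ⟨h0, h1⟩ := x23_ab hC v
  have l0 := x23_le hM hv h.1
  have l1 := x23_le hM hv h.2.1
  by_contra hc
  push Not at hc
  apply hn
  rw [h0] at l0 ⊢
  rw [h1] at l1 ⊢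
  have p0 : 0 ≤ tl f₀ * (tl f₁ * (inner ℝ v e : ℝ)) := by nlinarith
  have p1 : tl f₁ * (tl f₀ * (inner ℝ v e : ℝ)) ≤ 0 := by nlinarith
  have hz : (inner ℝ v e : ℝ) = 0 := by
    have : tl f₀ * tl f₁ * (inner ℝ v e : ℝ) = 0 := by nlinarith
    rcases mul_eq_zero.mp this with h | h
    · exact absurd h (by positivity)
    · exact h
  rw [hz] at l0 l1 ⊢
  constructor <;> nlinarith

theorem pf_X2 (hD : Stm_D2) : Stm_X2 := by
  intro V F hM f₀ f₁ T e d hC hadj v hv hn g g' g'' hg0 hg1 hg0' hg1' hg0'' hg1'' hlt hlt' hvg hvg''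
  have ha := x23_lt hM hC hadj hv hn
  obtain ⟨s0, s1, hh0, hy0, hy1, -, -⟩ := x23_pos hM hadj
  have k := x23_key hD hM hC v hg0 hg1
  have k' := x23_key hD hM hC v hg0' hg1'
  have k'' := x23_key hD hM hC v hg0'' hg1''
  have s : 0 < tl g := tl_pos (hM.one_lt_F _ hg0.1)
  have s' : 0 < tl g' := tl_pos (hM.one_lt_F _ hg0'.1)
  have s'' : 0 < tl g'' := tl_pos (hM.one_lt_F _ hg0''.1)
  rw [hvg, sub_self, mul_zero] at k
  rw [hvg'', sub_self, mul_zero] at k''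
  have hq := (mul_eq_zero.mp k.symm).resolve_left s.ne'
  have hq'' := (mul_eq_zero.mp k''.symm).resolve_left s''.ne'
  have hle := x23_le hM hv hg0'.1
  have hq' : x23_Q (inner ℝ v T) (inner ℝ v e) (inner ℝ v d) (hh f₀ f₁) (yy f₀ f₁) (xi d g') ≤ 0 := by
    have : tl g' * x23_Q (inner ℝ v T) (inner ℝ v e) (inner ℝ v d) (hh f₀ f₁) (yy f₀ f₁) (xi d g') ≤ 0 := by
      rw [← k']
      exact mul_nonpos_of_nonneg_of_nonpos hh0.le (by linarith)
    by_contra hc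
    push Not at hc
    nlinarith [mul_pos s' hc]
  unfold x23_Q at hq hq' hq''
  generalize hh f₀ f₁ = h at *
  generalize yy f₀ f₁ = y at *
  generalize xi d g = ξ at *
  generalize xi d g' = ξ' at *
  generalize xi d g'' = ξ'' at *
  generalize (inner ℝ v T : ℝ) = a at *
  generalize (inner ℝ v e : ℝ) = b at *
  generalize (inner ℝ v d : ℝ) = c at *
  have e1 : (ξ'' - ξ) * ((a - 1) * (ξ'' + ξ) + 2 * c * h) = 0 := by linear_combination hq'' - hq
  have e2 := (mul_eq_zero.mp e1).resolve_left (by linarith)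
  have e3 : (ξ' - ξ) * ((a - 1) * (ξ' + ξ) + 2 * c * h) ≤ 0 := by
    have : (ξ' - ξ) * ((a - 1) * (ξ' + ξ) + 2 * c * h) =
      ((a - 1) * (ξ' ^ 2 + h ^ 2 - y * (1 - y)) - 2 * h ^ 2 * a - h * b * (1 - 2 * y) + 2 * c * h * ξ') -
      ((a - 1) * (ξ ^ 2 + h ^ 2 - y * (1 - y)) - 2 * h ^ 2 * a - h * b * (1 - 2 * y) + 2 * c * h * ξ) := by ring
    rw [this, hq, sub_zero]
    exact hq'
  have e4 : (a - 1) * (ξ' + ξ) + 2 * c * h = (1 - a) * (ξ'' - ξ') := by linear_combination e2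
  rw [e4] at e3
  have : 0 < (ξ' - ξ) * ((1 - a) * (ξ'' - ξ')) :=
    mul_pos (by linarith) (mul_pos (by linarith) (by linarith))
  linarith

/-- the algebra of X3 -/
private theorem x23_alg {a b c h z κ ξ t D : ℝ} (hh : 0 < h) (ht : 0 ≤ t) (ha : a < 1)
    (hb : h * b = - (a - 1) * z) (hq : (a - 1) * (ξ ^ 2 + h ^ 2 - κ) - 2 * h ^ 2 * a - h * b * (1 - 2 * z) + 2 * c * h * ξ = 0)
    (hq' : (a - 1) * ((ξ + 1) ^ 2 + h ^ 2 - κ) - 2 * h ^ 2 * a - h * b * (1 - 2 * z) + 2 * c * h * (ξ + 1) = 0)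
    (hκ : κ = z * (1 - z)) (hD : D = (ξ + 1 / 2) ^ 2 + z ^ 2 + h ^ 2 - 1 / 4) (hn : t ^ 2 = a ^ 2 + b ^ 2 + c ^ 2 - 1) :
    t = h / D := by
  have hc : h * c = - (a - 1) * (ξ + 1 / 2) := by linear_combination (hq' - hq) / 2
  have hAD : (1 - a) * D = 2 * h ^ 2 := by
    rw [hD]
    have e : (a - 1) * (ξ ^ 2 + h ^ 2 - z * (1 - z)) - 2 * h ^ 2 * a + (a - 1) * z * (1 - 2 * z) -
        2 * (a - 1) * (ξ + 1 / 2) * ξ = 0 := by
      rw [hκ] at hq
      linear_combination hq + (1 - 2 * z) * hb - 2 * ξ * hc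
    linear_combination e
  have hDpos : 0 < D := by
    by_contra hneg
    push Not at hneg
    have : (1 - a) * D ≤ 0 := mul_nonpos_of_nonneg_of_nonpos (by linarith) hneg
    have h2 : 0 < 2 * h ^ 2 := by positivity
    linarith
  have hsq : (t * D) ^ 2 = h ^ 2 := by
    have h4 : 4 * h ^ 2 * (t ^ 2) = (1 - a) ^ 2 := by
      rw [hn]
      have e1 : (h * b) ^ 2 = (a - 1) ^ 2 * z ^ 2 := by rw [hb]; ring
      have e2 : (h * c) ^ 2 = (a - 1) ^ 2 * (ξ + 1 / 2) ^ 2 := by rw [hc]; ring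
      have e3 : (1 - a) * ((ξ + 1 / 2) ^ 2 + z ^ 2 + h ^ 2 - 1 / 4) = 2 * h ^ 2 := by rw [← hD]; exact hAD
      linear_combination 4 * e1 + 4 * e2 + 4 * (1 - a) * e3
    have h5 : 4 * h ^ 2 * (t * D) ^ 2 = 4 * h ^ 2 * h ^ 2 := by
      have : 4 * h ^ 2 * (t * D) ^ 2 = (4 * h ^ 2 * t ^ 2) * D ^ 2 := by ring
      rw [this, h4, ← mul_pow, hAD]
      ring
    exact mul_left_cancel₀ (by positivity) h5
  have h6 : t * D = h := (pow_left_inj₀ (mul_nonneg ht hDpos.le) hh.le two_ne_zero).mp hsq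
  rw [eq_div_iff hDpos.ne', h6]

theorem pf_X3 (hD : Stm_D2) : Stm_X3 := by
  intro V F hM f₀ f₁ T e d hC hadj v hv g g' hg0 hg1 hg0' hg1' hxi hvg hvg'
  obtain ⟨s0, s1, hh0, hy0, hy1, hy, hy'⟩ := x23_pos hM hadj
  have k := x23_key hD hM hC v hg0 hg1
  have k' := x23_key hD hM hC v hg0' hg1'
  have s : 0 < tl g := tl_pos (hM.one_lt_F _ hg0.1)
  have s' : 0 < tl g' := tl_pos (hM.one_lt_F _ hg0'.1)
  rw [hvg, sub_self, mul_zero] at k
  rw [hvg', sub_self, mul_zero] at k'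
  have hq := (mul_eq_zero.mp k.symm).resolve_left s.ne'
  have hq' := (mul_eq_zero.mp k'.symm).resolve_left s'.ne'
  rw [hxi] at hq'
  have hns : tl v ^ 2 = (inner ℝ v T : ℝ) ^ 2 + (inner ℝ v e : ℝ) ^ 2 + (inner ℝ v d : ℝ) ^ 2 - 1 := by
    have h1 := x23_inner hC.nT hC.ne hC.nd hC.Te hC.Td hC.ed v v
    rw [real_inner_self_eq_norm_sq] at h1
    have h2 := tl_sq (hM.one_lt_V _ hv)
    linarith
  have htl : 0 ≤ tl v := (tl_pos (hM.one_lt_V _ hv)).le
  obtain ⟨i0, i1⟩ := x23_ab hC v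
  unfold x23_Q at hq hq'
  constructor
  · intro hv0 hv1
    have ha := x23_lt hM hC hadj hv (fun h => hv1 h.2)
    rw [hv0] at i0
    refine x23_alg (a := inner ℝ v T) (b := inner ℝ v e) (c := inner ℝ v d) (z := yy f₀ f₁)
      (κ := yy f₀ f₁ * (1 - yy f₀ f₁)) (ξ := xi d g) hh0 htl ha ?_ ?_ ?_ rfl rfl hns
    · rw [← hy]
      linear_combination (-yy f₀ f₁) * i0
    · linear_combination hq
    · linear_combination hq'
  · intro hv1 hv0
    have ha := x23_lt hM hC hadj hv (fun h => hv0 h.1)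
    rw [hv1] at i1
    refine x23_alg (a := inner ℝ v T) (b := - inner ℝ v e) (c := inner ℝ v d) (z := 1 - yy f₀ f₁)
      (κ := yy f₀ f₁ * (1 - yy f₀ f₁)) (ξ := xi d g) hh0 htl ha ?_ ?_ ?_ (by ring) rfl (by rw [hns]; ring)
    · rw [← hy']
      linear_combination (-(1 - yy f₀ f₁)) * i1
    · linear_combination hq
    · linear_combination hq'

end Pool.Agent.Lib.MP_af06f6_co
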