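import Mathlib
import Pool.Agent.Lib.MP_af06f6_co.X.Stm

/-!
# MP_af06f6_co, exact case: X5, the abstract sum lemma
-/

open Set

namespace Pool.Agent.Lib.MP_af06f6_co

private lemma x5_arctan_le {u : ℝ} (hu : 0 ≤ u) : Real.arctan u ≤ u := by
  have h := Real.le_tan (Real.arctan_nonneg.2 hu) (Real.arctan_lt_pi_div_two u)
  rwa [Real.tan_arctan] at h

private lemma x5_arctan_ge {u : ℝ} (hu : 0 ≤ u) : 3 * u / (3 + u ^ 2) ≤ Real.arctan u := by
  have hd : ∀ x : ℝ, HasDerivAt (fun x => Real.arctan x - 3 * x / (3 + x ^ 2))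
      (1 / (1 + x ^ 2) - (3 * (3 + x ^ 2) - 3 * x * (2 * x)) / (3 + x ^ 2) ^ 2) x := by
    intro x
    have h1 := Real.hasDerivAt_arctan x
    have h2 : HasDerivAt (fun x : ℝ => 3 * x) 3 x := by
      simpa using (hasDerivAt_id x).const_mul (3 : ℝ)
    have h3 : HasDerivAt (fun x : ℝ => 3 + x ^ 2) (2 * x) x := by
      simpa using (hasDerivAt_pow 2 x).const_add (3 : ℝ)
    exact h1.sub (h2.div h3 (by positivity))
  have hmono : MonotoneOn (fun x => Real.arctan x - 3 * x / (3 + x ^ 2)) (Ici 0) := by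
    refine monotoneOn_of_deriv_nonneg (convex_Ici 0) ?_ ?_ ?_
    · exact fun x _ => (hd x).continuousAt.continuousWithinAt
    · exact fun x _ => (hd x).differentiableAt.differentiableWithinAt
    · intro x _
      rw [(hd x).deriv]
      have e : 1 / (1 + x ^ 2) - (3 * (3 + x ^ 2) - 3 * x * (2 * x)) / (3 + x ^ 2) ^ 2 =
          4 * x ^ 4 / ((1 + x ^ 2) * (3 + x ^ 2) ^ 2) := by
        have h1 : (1 + x ^ 2) ≠ 0 := by positivity
        have h2 : (3 + x ^ 2) ≠ 0 := by positivity
        field_simp
        ring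
      rw [e]
      positivity
  have := hmono (mem_Ici.mpr le_rfl) (mem_Ici.mpr hu) hu
  simp at this
  linarith

private lemma x5_psi {T a b c : ℝ} (hT : 0 < T) (ha : 0 < a) (hb : 0 < b) (hc : 0 < c)
    (h : (T / a) ^ 2 + (T / b) ^ 2 + (T / c) ^ 2 ≤ 9 / 2) :
    2 * T ≤ a * Real.arctan (T / a) + b * Real.arctan (T / b) + c * Real.arctan (T / c) := by
  have key : ∀ r : ℝ, 0 < r → T * (2 / 3 - 4 / 27 * ((T / r) ^ 2 - 3 / 2)) ≤ r * Real.arctan (T / r) := by
    intro r hr
    have h1 := x5_arctan_ge (u := T / r) (by positivity)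
    have h2 : r * (3 * (T / r) / (3 + (T / r) ^ 2)) ≤ r * Real.arctan (T / r) :=
      mul_le_mul_of_nonneg_left h1 hr.le
    refine le_trans ?_ h2
    have h3 : r * (3 * (T / r) / (3 + (T / r) ^ 2)) = T * (3 / (3 + (T / r) ^ 2)) := by
      have : (3 + (T / r) ^ 2) ≠ 0 := by positivity
      field_simp
    rw [h3]
    refine mul_le_mul_of_nonneg_left ?_ hT.le
    set x := (T / r) ^ 2 with hx
    have hx0 : 0 ≤ x := by positivity
    rw [le_div_iff₀ (by positivity)]
    nlinarith [sq_nonneg (x - 3 / 2)]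
  have k1 := key a ha
  have k2 := key b hb
  have k3 := key c hc
  nlinarith

open Classical in
theorem pf_X5 : Stm_X5 := by
  intro α β W I t dg f₁ w gs T rr ht hdg hr hr1 hT hinj hne h3 h4 h4' h5 h6 h7
  -- the weight of a vertex on a face
  set a : α → β → ℝ := fun v f => rr f * Real.arctan (t v / rr f) with ha
  have ha0 : ∀ v ∈ W, ∀ f, 0 < rr f → a v f ≤ t v := by
    intro v hv f hf
    have h1 : 0 ≤ t v / rr f := (div_pos (ht v hv) hf).le
    have h2 := x5_arctan_le h1
    calc rr f * Real.arctan (t v / rr f) ≤ rr f * (t v / rr f) := mul_le_mul_of_nonneg_left h2 hf.le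
      _ = t v := by field_simp
  set Φ : α → ℝ := fun v => (if I v f₁ then a v f₁ else 0) +
    ∑ j ∈ Finset.range (w + 1), if I v (gs j) then a v (gs j) else 0 with hΦ
  set Ψ : ℕ → ℝ := fun i => rr f₁ * Real.arctan (T i / rr f₁) +
    rr (gs i) * Real.arctan (T i / rr (gs i)) +
    rr (gs (i + 1)) * Real.arctan (T i / rr (gs (i + 1))) with hΨ
  -- the total
  have hsum : ∑ v ∈ W, Φ v = ∑ i ∈ Finset.range w, Ψ i := by
    have e1 : ∑ v ∈ W, (if I v f₁ then a v f₁ else 0) =
        ∑ i ∈ Finset.range w, rr f₁ * Real.arctan (T i / rr f₁) := by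
      rw [← Finset.sum_filter]
      simp only [ha]
      rw [← Finset.mul_sum, ← Finset.mul_sum, h5]
    have e2 : ∀ j ∈ Finset.range (w + 1), ∑ v ∈ W, (if I v (gs j) then a v (gs j) else 0) =
        (if 0 < j then rr (gs j) * Real.arctan (T (j - 1) / rr (gs j)) else 0) +
        (if j < w then rr (gs j) * Real.arctan (T j / rr (gs j)) else 0) := by
      intro j hj
      have hj' : j ≤ w := Nat.lt_succ_iff.mp (Finset.mem_range.mp hj)
      rw [← Finset.sum_filter]
      simp only [ha]
      rw [← Finset.mul_sum, h6 j hj', mul_add, mul_ite, mul_ite, mul_zero]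
    have e3 : ∑ v ∈ W, ∑ j ∈ Finset.range (w + 1), (if I v (gs j) then a v (gs j) else 0) =
        ∑ i ∈ Finset.range w, (rr (gs i) * Real.arctan (T i / rr (gs i)) +
          rr (gs (i + 1)) * Real.arctan (T i / rr (gs (i + 1)))) := by
      rw [Finset.sum_comm, Finset.sum_congr rfl e2, Finset.sum_add_distrib, Finset.sum_add_distrib]
      rw [Finset.sum_range_succ' (fun j => if 0 < j then rr (gs j) * Real.arctan (T (j - 1) / rr (gs j)) else 0),
        Finset.sum_range_succ (fun j => if j < w then rr (gs j) * Real.arctan (T j / rr (gs j)) else 0)]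
      simp only [Nat.succ_pos, if_true, lt_irrefl, if_false, add_zero, Nat.add_sub_cancel]
      rw [add_comm]
      congr 1
      refine Finset.sum_congr rfl ?_
      intro j hj
      rw [if_pos (Finset.mem_range.mp hj)]
    simp only [hΦ, hΨ]
    rw [Finset.sum_add_distrib, e1, e3, ← Finset.sum_add_distrib]
    refine Finset.sum_congr rfl ?_
    intro i _
    ring
  -- trivial vertices
  set P : α → ℕ → Prop := fun v i => i < w ∧ I v f₁ ∧ I v (gs i) ∧ I v (gs (i + 1)) with hP
  set ι : α → ℕ := fun v => if h : ∃ i, P v i then Classical.choose h else 0 with hι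
  set Wt := W.filter (fun v => ∃ i, P v i) with hWt
  have hιP : ∀ v ∈ Wt, P v (ι v) := by
    intro v hv
    have h := (Finset.mem_filter.mp hv).2
    simp only [hι]
    rw [dif_pos h]
    exact Classical.choose_spec h
  have hιinj : Set.InjOn ι (Wt : Set α) := by
    intro v hv v' hv' he
    have p := hιP v hv
    have p' := hιP v' hv'
    rw [← he] at p'
    exact h4' v (Finset.mem_filter.mp hv).1 v' (Finset.mem_filter.mp hv').1 (ι v) p.1
      p.2.1 p.2.2.1 p.2.2.2 p'.2.1 p'.2.2.1 p'.2.2.2
  have hS : Wt.image ι ⊆ Finset.range w := by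
    intro i hi
    obtain ⟨v, hv, rfl⟩ := Finset.mem_image.mp hi
    exact Finset.mem_range.mpr (hιP v hv).1
  have hΦt : ∀ v ∈ Wt, Φ v = Ψ (ι v) := by
    intro v hv
    have hvW := (Finset.mem_filter.mp hv).1
    obtain ⟨q1, q2, q3, q4⟩ := hιP v hv
    set i := ι v with hi
    have hti : t v = T i := h4 v hvW i q1 q2 q3 q4
    simp only [hΦ, hΨ]
    rw [if_pos q2]
    have : ∑ j ∈ Finset.range (w + 1), (if I v (gs j) then a v (gs j) else 0) =
        (if I v (gs i) then a v (gs i) else 0) + (if I v (gs (i + 1)) then a v (gs (i + 1)) else 0) := by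
      refine Finset.sum_eq_add i (i + 1) (by omega) ?_ ?_ ?_
      · intro j hj hne'
        have hjw : j ≤ w := Nat.lt_succ_iff.mp (Finset.mem_range.mp hj)
        rw [if_neg]
        intro hI
        rcases lt_trichotomy j i with h | h | h
        · have k1 := h3 v hvW j hjw i q1.le h hI q3
          have k2 := h3 v hvW j hjw (i + 1) q1 (by omega) hI q4
          omega
        · exact hne'.1 h
        · have k1 := h3 v hvW i q1.le j hjw h q3 hI
          exact hne'.2 k1
      · intro hn
        exact absurd (Finset.mem_range.mpr (by omega)) hn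
      · intro hn
        exact absurd (Finset.mem_range.mpr (by omega)) hn
    rw [this, if_pos q3, if_pos q4]
    simp only [ha, hti]
    ring
  -- nontrivial vertices
  have hΦn : ∀ v ∈ W, (¬ ∃ i, P v i) → Φ v ≤ 2 * t v := by
    intro v hv hn
    have htv := ht v hv
    set K := (Finset.range (w + 1)).filter (fun j => I v (gs j)) with hK
    have hsumK : ∑ j ∈ Finset.range (w + 1), (if I v (gs j) then a v (gs j) else 0) ≤ K.card * t v := by
      rw [← Finset.sum_filter, ← nsmul_eq_mul]
      refine Finset.sum_le_card_nsmul _ _ _ ?_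
      intro j hj
      have hj' := (Finset.mem_filter.mp hj)
      exact ha0 v hv _ (hr j (Nat.lt_succ_iff.mp (Finset.mem_range.mp hj'.1)))
    have hf1 : (if I v f₁ then a v f₁ else 0) ≤ (if I v f₁ then 1 else 0) * t v := by
      split_ifs
      · rw [one_mul]; exact ha0 v hv _ hr1
      · simp
    have hcard : (K.card : ℝ) + (if I v f₁ then 1 else 0) ≤ 2 := by
      rcases K.eq_empty_or_nonempty with h0 | h0
      · rw [h0]
        split_ifs <;> norm_num
      · set i := K.min' h0 with hi
        have hiK : i ∈ K := Finset.min'_mem K h0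
        have hiK' := Finset.mem_filter.mp hiK
        have hiw : i ≤ w := Nat.lt_succ_iff.mp (Finset.mem_range.mp hiK'.1)
        have hsub : ∀ j ∈ K, j = i ∨ j = i + 1 := by
          intro j hj
          have hj' := Finset.mem_filter.mp hj
          have hjw : j ≤ w := Nat.lt_succ_iff.mp (Finset.mem_range.mp hj'.1)
          rcases (Finset.min'_le K j hj).eq_or_lt with h | h
          · exact Or.inl h.symm
          · exact Or.inr (h3 v hv i hiw j hjw h hiK'.2 hj'.2)
        by_cases hI : I v f₁
        · rw [if_pos hI]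
          have : K ⊆ {i} := by
            intro j hj
            rcases hsub j hj with h | h
            · exact Finset.mem_singleton.mpr h
            · exfalso
              have hj' := Finset.mem_filter.mp hj
              have hjw : j ≤ w := Nat.lt_succ_iff.mp (Finset.mem_range.mp hj'.1)
              subst h
              exact hn ⟨i, by omega, hI, hiK'.2, hj'.2⟩
          have hc := Finset.card_le_card this
          rw [Finset.card_singleton] at hc
          have : (K.card : ℝ) ≤ 1 := by exact_mod_cast hc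
          linarith
        · rw [if_neg hI]
          have : K ⊆ {i, i + 1} := by
            intro j hj
            rcases hsub j hj with h | h
            · simp [h]
            · simp [h]
          have hc := (Finset.card_le_card this).trans Finset.card_le_two
          have : (K.card : ℝ) ≤ 2 := by exact_mod_cast hc
          linarith
    simp only [hΦ]
    nlinarith
  -- assemble
  have hsplit : ∑ v ∈ W, Φ v = ∑ v ∈ Wt, Φ v + ∑ v ∈ W.filter (fun v => ¬ ∃ i, P v i), Φ v :=
    (Finset.sum_filter_add_sum_filter_not W _ _).symm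
  have hsplit2 : ∑ v ∈ W, dg v * t v = ∑ v ∈ Wt, dg v * t v +
      ∑ v ∈ W.filter (fun v => ¬ ∃ i, P v i), dg v * t v :=
    (Finset.sum_filter_add_sum_filter_not W _ _).symm
  have hWtΦ : ∑ v ∈ Wt, Φ v = ∑ i ∈ Wt.image ι, Ψ i := by
    rw [Finset.sum_image hιinj]
    exact Finset.sum_congr rfl hΦt
  have hWtT : 3 * ∑ i ∈ Wt.image ι, T i ≤ ∑ v ∈ Wt, dg v * t v := by
    rw [Finset.sum_image hιinj, Finset.mul_sum]
    refine Finset.sum_le_sum ?_
    intro v hv
    have hvW := (Finset.mem_filter.mp hv).1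
    obtain ⟨q1, q2, q3, q4⟩ := hιP v hv
    rw [← h4 v hvW (ι v) q1 q2 q3 q4]
    exact mul_le_mul_of_nonneg_right (hdg v hvW) (ht v hvW).le
  have hn1 : 3 / 2 * ∑ v ∈ W.filter (fun v => ¬ ∃ i, P v i), Φ v ≤
      ∑ v ∈ W.filter (fun v => ¬ ∃ i, P v i), dg v * t v := by
    rw [Finset.mul_sum]
    refine Finset.sum_le_sum ?_
    intro v hv
    have hv' := Finset.mem_filter.mp hv
    have k1 := hΦn v hv'.1 hv'.2
    have k2 : 3 * t v ≤ dg v * t v := mul_le_mul_of_nonneg_right (hdg v hv'.1) (ht v hv'.1).le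
    linarith
  have hΨ2 : ∀ i ∈ Finset.range w, 2 * T i ≤ Ψ i := by
    intro i hi
    have hi' := Finset.mem_range.mp hi
    exact x5_psi (hT i hi') hr1 (hr i hi'.le) (hr (i + 1) hi') (h7 i hi')
  have hSd : ∑ i ∈ Finset.range w \ Wt.image ι, Ψ i + ∑ i ∈ Wt.image ι, Ψ i =
      ∑ i ∈ Finset.range w, Ψ i := Finset.sum_sdiff hS
  have hTd : ∑ i ∈ Finset.range w \ Wt.image ι, T i + ∑ i ∈ Wt.image ι, T i =
      ∑ i ∈ Finset.range w, T i := Finset.sum_sdiff hS
  have hNd : 2 * ∑ i ∈ Finset.range w \ Wt.image ι, T i ≤ ∑ i ∈ Finset.range w \ Wt.image ι, Ψ i := by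
    rw [Finset.mul_sum]
    exact Finset.sum_le_sum fun i hi => hΨ2 i (Finset.mem_sdiff.mp hi).1
  linarith

end Pool.Agent.Lib.MP_af06f6_co
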