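import Mathlib
import Pool.Agent.Lib.MP_af06f6_co.X.Stm

/-!
# MP_af06f6_co, exact case, pieces X6a, X6b
-/

open Set

namespace Pool.Agent.Lib.MP_af06f6_co

private lemma x6a_sin (t : ℝ) : Real.sin (Real.arctan t) = t * Real.cos (Real.arctan t) := by
  rw [Real.sin_arctan, Real.cos_arctan]
  ring

private lemma x6a_four {t1 t2 t3 t4 : ℝ} (h1 : 0 < t1) (h2 : 0 < t2) (h3 : 0 < t3) (h4 : 0 < t4)
    (h : t1 + t2 + t3 + t4 = t1 * t2 * t3 + t1 * t2 * t4 + t1 * t3 * t4 + t2 * t3 * t4) :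
    Real.arctan t1 + Real.arctan t2 + Real.arctan t3 + Real.arctan t4 = Real.pi := by
  have a1 := Real.arctan_pos.mpr h1
  have a2 := Real.arctan_pos.mpr h2
  have a3 := Real.arctan_pos.mpr h3
  have a4 := Real.arctan_pos.mpr h4
  have b1 := Real.arctan_lt_pi_div_two t1
  have b2 := Real.arctan_lt_pi_div_two t2
  have b3 := Real.arctan_lt_pi_div_two t3
  have b4 := Real.arctan_lt_pi_div_two t4
  have hs : Real.sin (Real.arctan t1 + Real.arctan t2 + Real.arctan t3 + Real.arctan t4) = 0 := by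
    simp only [Real.sin_add, Real.cos_add, x6a_sin]
    have e : t1 + t2 + t3 + t4 - (t1 * t2 * t3 + t1 * t2 * t4 + t1 * t3 * t4 + t2 * t3 * t4) = 0 := by linarith
    linear_combination (Real.cos (Real.arctan t1) * Real.cos (Real.arctan t2) * Real.cos (Real.arctan t3) *
      Real.cos (Real.arctan t4)) * e
  have hs' : Real.sin (Real.arctan t1 + Real.arctan t2 + Real.arctan t3 + Real.arctan t4 - Real.pi) = 0 := by
    rw [Real.sin_sub_pi, hs, neg_zero]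
  have := (Real.sin_eq_zero_iff_of_lt_of_lt (by linarith) (by linarith)).mp hs'
  linarith

private lemma x6a_three {t1 t2 t3 : ℝ} (h1 : 0 < t1) (h2 : 0 < t2) (h3 : 0 < t3) (h : t1 + t2 + t3 = t1 * t2 * t3) :
    Real.arctan t1 + Real.arctan t2 + Real.arctan t3 = Real.pi := by
  have a1 := Real.arctan_pos.mpr h1
  have a2 := Real.arctan_pos.mpr h2
  have a3 := Real.arctan_pos.mpr h3
  have b1 := Real.arctan_lt_pi_div_two t1
  have b2 := Real.arctan_lt_pi_div_two t2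
  have b3 := Real.arctan_lt_pi_div_two t3
  have hs : Real.sin (Real.arctan t1 + Real.arctan t2 + Real.arctan t3) = 0 := by
    rw [Real.sin_add, Real.sin_add, Real.cos_add, x6a_sin t1, x6a_sin t2, x6a_sin t3]
    have e : t1 + t2 + t3 - t1 * t2 * t3 = 0 := by linarith
    linear_combination (Real.cos (Real.arctan t1) * Real.cos (Real.arctan t2) * Real.cos (Real.arctan t3)) * e
  have hs' : Real.sin (Real.arctan t1 + Real.arctan t2 + Real.arctan t3 - Real.pi) = 0 := by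
    rw [Real.sin_sub_pi, hs, neg_zero]
  have := (Real.sin_eq_zero_iff_of_lt_of_lt (by linarith) (by linarith)).mp hs'
  linarith

private lemma x6a_q {ξ h y : ℝ} (hh : 0 < h) : 0 < √(h ^ 2 + (ξ ^ 2 + h ^ 2 - y * (1 - y)) ^ 2) ∧
    √(h ^ 2 + (ξ ^ 2 + h ^ 2 - y * (1 - y)) ^ 2) ^ 2 = (ξ ^ 2 + h ^ 2 + y ^ 2) * (ξ ^ 2 + h ^ 2 + (1 - y) ^ 2) - ξ ^ 2 := by
  constructor
  · apply Real.sqrt_pos.mpr
    positivity
  · rw [Real.sq_sqrt (by positivity)]
    ring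

theorem pf_X6a : Stm_X6a := by
  intro ξ h y hh h1 h2 h3 h4
  obtain ⟨hq, hq2⟩ := x6a_q (ξ := ξ) (y := y) hh
  set q := √(h ^ 2 + (ξ ^ 2 + h ^ 2 - y * (1 - y)) ^ 2) with hqd
  have e1 : dA (ξ - 1 / 2) h y = (ξ ^ 2 + h ^ 2 + y ^ 2) - ξ := by unfold dA; ring
  have e2 : dA (ξ + 1 / 2) h y = (ξ ^ 2 + h ^ 2 + y ^ 2) + ξ := by unfold dA; ring
  have e3 : dB (ξ - 1 / 2) h y = (ξ ^ 2 + h ^ 2 + (1 - y) ^ 2) - ξ := by unfold dB; ring
  have e4 : dB (ξ + 1 / 2) h y = (ξ ^ 2 + h ^ 2 + (1 - y) ^ 2) + ξ := by unfold dB; ring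
  rw [e1] at h1 ⊢
  rw [e2] at h2 ⊢
  rw [e3] at h3 ⊢
  rw [e4] at h4 ⊢
  clear_value q
  generalize ξ ^ 2 + h ^ 2 + y ^ 2 = P at *
  generalize ξ ^ 2 + h ^ 2 + (1 - y) ^ 2 = Q at *
  apply x6a_four (by positivity) (by positivity) (by positivity) (by positivity)
  field_simp
  rw [hq2]
  ring

theorem pf_X6b : Stm_X6b := by
  intro ξ h y hh hx h1 h3
  obtain ⟨hq, hq2⟩ := x6a_q (ξ := ξ) (y := y) hh
  set q := √(h ^ 2 + (ξ ^ 2 + h ^ 2 - y * (1 - y)) ^ 2) with hqd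
  have e1 : dA (ξ - 1 / 2) h y = (ξ ^ 2 + h ^ 2 + y ^ 2) - ξ := by unfold dA; ring
  have e3 : dB (ξ - 1 / 2) h y = (ξ ^ 2 + h ^ 2 + (1 - y) ^ 2) - ξ := by unfold dB; ring
  rw [e1] at h1 ⊢
  rw [e3] at h3 ⊢
  clear_value q
  generalize ξ ^ 2 + h ^ 2 + y ^ 2 = P at *
  generalize ξ ^ 2 + h ^ 2 + (1 - y) ^ 2 = Q at *
  apply x6a_three (by positivity) (by positivity) (by positivity)
  field_simp
  rw [hq2]
  ring

end Pool.Agent.Lib.MP_af06f6_co
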