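import Mathlib
import Pool.Agent.Lib.MP_af06f6_co.X.Stm

set_option autoImplicit false

/-!
# MP_af06f6_co, exact case: X6c (telescoping arctan sum) and X6d (algebraic inequality)
-/

open Set

namespace Pool.Agent.Lib.MP_af06f6_co

private lemma x6cd_arctan (q a b : ℝ) (hq : 0 < q) (hab : a - b = 1) (hd : 0 < q ^ 2 + b * a) :
    Real.arctan (q / (q ^ 2 + b * a)) = Real.arctan (a / q) - Real.arctan (b / q) := by
  have h1 : (a / q) * (-(b / q)) < 1 := by
    have : (a / q) * (-(b / q)) = 1 - (q ^ 2 + b * a) / q ^ 2 := by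
      field_simp
      ring
    rw [this]
    have : 0 < (q ^ 2 + b * a) / q ^ 2 := by positivity
    linarith
  have h2 := Real.arctan_add h1
  rw [Real.arctan_neg] at h2
  rw [sub_eq_add_neg, h2]
  congr 1
  have h3 : 1 - (a / q) * (-(b / q)) = (q ^ 2 + b * a) / q ^ 2 := by
    field_simp
    ring
  have h4 : a / q + -(b / q) = 1 / q := by
    rw [← hab]
    ring
  rw [h3, h4]
  field_simp

theorem pf_X6c : Stm_X6c := by
  intro w x0 h y hh hx hxw hd
  set q : ℝ := √(h ^ 2 + (1 - y) ^ 2) with hq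
  have hq0 : 0 < q := Real.sqrt_pos.mpr (by positivity)
  have hq2 : q ^ 2 = h ^ 2 + (1 - y) ^ 2 := Real.sq_sqrt (by positivity)
  have e : ∀ i : ℕ, dB (i + 1 / 2 - x0) h y = q ^ 2 + ((i : ℝ) - x0) * (((i + 1 : ℕ) : ℝ) - x0) := by
    intro i
    unfold dB
    rw [hq2]
    push_cast
    ring
  have hs : ∑ i ∈ Finset.range w, Real.arctan (q / dB (i + 1 / 2 - x0) h y) =
      ∑ i ∈ Finset.range w, (Real.arctan ((((i + 1 : ℕ) : ℝ) - x0) / q) - Real.arctan (((i : ℝ) - x0) / q)) := by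
    refine Finset.sum_congr rfl fun i hi => ?_
    have hdi := hd i (Finset.mem_range.mp hi)
    rw [e i] at hdi ⊢
    exact x6cd_arctan q _ _ hq0 (by push_cast; ring) hdi
  rw [hs, Finset.sum_range_sub (fun i : ℕ => Real.arctan (((i : ℝ) - x0) / q)) w]
  have h1 : Real.arctan (q / x0) = Real.pi / 2 - Real.arctan (x0 / q) := by
    rw [← Real.arctan_inv_of_pos (by positivity), inv_div]
  have hwx : 0 < (w : ℝ) - x0 := by linarith
  have h2 : Real.arctan (q / (w - x0)) = Real.pi / 2 - Real.arctan ((w - x0) / q) := by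
    rw [← Real.arctan_inv_of_pos (by positivity), inv_div]
  have h3 : Real.arctan (((0 : ℕ) - x0) / q) = -Real.arctan (x0 / q) := by
    rw [← Real.arctan_neg]
    congr 1
    push_cast
    ring
  rw [h1, h2, h3]
  ring

theorem pf_X6d : Stm_X6d := by
  intro d h y hh hy0 hy1
  set D : ℝ := dB d h y with hD
  have hDe : D = d ^ 2 + (1 - y) ^ 2 + h ^ 2 - 1 / 4 := rfl
  have hy2 : (0.667 : ℝ) ≤ (1 - y) ^ 2 := by nlinarith
  have hd2 := sq_nonneg d
  have hD1 : (1.15 : ℝ) ≤ D := by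
    rw [hDe]
    linarith
  have hD0 : 0 < D := by linarith
  refine ⟨hD0, ?_⟩
  rw [← add_div, ← add_div, div_le_iff₀ (by positivity)]
  have e : h ^ 2 + (1 - y) ^ 2 + (h ^ 2 + ((d - 1 / 2) ^ 2 + h ^ 2 - y * (1 - y)) ^ 2) +
      (h ^ 2 + ((d + 1 / 2) ^ 2 + h ^ 2 - y * (1 - y)) ^ 2) = h ^ 2 + y ^ 2 + 2 * D ^ 2 + 4 * y * D := by
    rw [hDe]
    ring
  rw [e]
  have h1 : h ^ 2 + y ^ 2 ≤ D := by
    rw [hDe]
    nlinarith
  have h2 : 4 * y * D ≤ 0.732 * D := by nlinarith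
  nlinarith

end Pool.Agent.Lib.MP_af06f6_co
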