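import Mathlib
import Pool.Agent.Lib.MP_af06f6_co.X.Stm
import Pool.Agent.Lib.MP_af06f6_co.G.P.C2b

/-!
# MP_af06f6_co, exact case, X7: comparison with the exact configuration
-/

open Set

namespace Pool.Agent.Lib.MP_af06f6_co

private theorem x7_ratio {f : E3} (hf : 1 < ‖f‖) {h D c : ℝ} (hh : 0 < h)
    (hc : h / tl f = c) : (h / D) / (tl f / ‖f‖) = √(h ^ 2 + c ^ 2) / D := by
  have h0 := tl_pos hf
  have h1 := tl_sq hf
  have hn : 0 < ‖f‖ := by linarith
  have e : √(h ^ 2 + c ^ 2) = h * ‖f‖ / tl f := by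
    rw [Real.sqrt_eq_iff_mul_self_eq (by positivity) (by positivity)]
    rw [← hc]
    have h2 : ‖f‖ ^ 2 = tl f ^ 2 + 1 := by linarith
    field_simp
    nlinarith
  rw [e]
  field_simp

open Classical in
private theorem x7_split {V F : Finset E3} (hM : Mid V F)
    (hC : Cfg V F (fun v f => inner ℝ v f = (1 : ℝ)) hx hx)
    {f f₀ a b : E3} (hf : f ∈ F) (hf₀ : f₀ ∈ F) (hne : f ≠ f₀) (ha : a ∈ V) (hb : b ∈ V)
    (hab : a ≠ b) (ha1 : inner ℝ a f = (1 : ℝ)) (ha0 : inner ℝ a f₀ = (1 : ℝ))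
    (hb1 : inner ℝ b f = (1 : ℝ)) (hb0 : inner ℝ b f₀ = (1 : ℝ)) :
    ∑ v ∈ (V.filter (fun v => ¬ Inc v f₀)).filter (fun v => Inc v f),
      Real.arctan (tl v / (tl f / ‖f‖)) =
    Real.pi - Real.arctan (tl a / (tl f / ‖f‖)) - Real.arctan (tl b / (tl f / ‖f‖)) := by
  have hcl : ∑ v ∈ V.filter (fun v => Inc v f), Real.arctan (tl v / (tl f / ‖f‖)) = Real.pi := by
    have h1 := hC.face f hf
    rw [← h1]
    refine Finset.sum_congr ?_ ?_
    · ext v
      simp only [vof, Finset.mem_filter, Inc]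
    · intro v hv
      have hvV : v ∈ V := (Finset.mem_filter.1 hv).1
      exact pf_C2b v f (hM.one_lt_V v hvV) (hM.one_lt_F f hf)
  have hP : V.filter (fun v => Inc v f ∧ Inc v f₀) = {a, b} := by
    symm
    apply Finset.eq_of_subset_of_card_le
    · intro v hv
      rw [Finset.mem_insert, Finset.mem_singleton] at hv
      rw [Finset.mem_filter]
      rcases hv with rfl | rfl
      · exact ⟨ha, ha1, ha0⟩
      · exact ⟨hb, hb1, hb0⟩
    · rw [Finset.card_pair hab]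
      refine le_trans (le_of_eq ?_) (hC.common f hf f₀ hf₀ hne)
      congr 1
  have hsp := Finset.sum_filter_add_sum_filter_not (V.filter (fun v => Inc v f))
    (fun v => Inc v f₀) (fun v => Real.arctan (tl v / (tl f / ‖f‖)))
  rw [hcl, Finset.filter_filter, Finset.filter_filter, hP, Finset.sum_pair hab] at hsp
  rw [Finset.filter_filter]
  have e : V.filter (fun v => ¬ Inc v f₀ ∧ Inc v f) = V.filter (fun v => Inc v f ∧ ¬ Inc v f₀) := by
    ext v
    simp only [Finset.mem_filter, and_comm]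
  rw [e]
  linarith

open Classical in
theorem pf_X7 (hX2 : Stm_X2) (hX3 : Stm_X3) (hX5 : Stm_X5) (hX6a : Stm_X6a) (hX6b : Stm_X6b)
    (hX6c : Stm_X6c) (hX6d : Stm_X6d) (hD2 : Stm_D2) (hA3 : Stm_A3) : Stm_X7 := by
  intro V F hM hC f₀ f₁ T e d hco hadj hh2 hyy w x0 gs A C C' hch
  have hf₀ : f₀ ∈ F := hadj.1
  have hf₁ : f₁ ∈ F := hadj.2.1
  have hne : f₀ ≠ f₁ := hadj.2.2.1
  have hs₀ : 0 < tl f₀ := tl_pos (hM.one_lt_F f₀ hf₀)
  have hs₁ : 0 < tl f₁ := tl_pos (hM.one_lt_F f₁ hf₁)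
  obtain ⟨h, hhdef⟩ : ∃ h, h = hh f₀ f₁ := ⟨_, rfl⟩
  obtain ⟨y, hydef⟩ : ∃ y, y = yy f₀ f₁ := ⟨_, rfl⟩
  have hX3' := hX3 V F hM f₀ f₁ T e d hco hadj
  have htC := hch.hC
  have htC' := hch.hC'
  rw [← hhdef] at hh2 hX3' htC htC' ⊢
  rw [← hydef] at hyy hX3' ⊢
  have hpos : 0 < h := by rw [hhdef]; unfold hh; positivity
  have hy0 : 0 < y := by rw [hydef]; unfold yy; positivity
  have hx0 := hch.x0pos
  have hxw := hch.x0lt
  have hB : ∀ D, 0 < dB D h y := fun D => (hX6d D h y hh2 hy0.le hyy).1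
  have hA : ∀ D, 0 < dA D h y := by
    intro D
    unfold dA
    nlinarith [sq_nonneg D, sq_nonneg y]
  have hc1 : h / tl f₁ = 1 - y := by
    rw [hhdef, hydef]
    unfold hh yy
    field_simp
    ring
  have hgF : ∀ j ≤ w, gs j ∈ F := fun j hj => (hch.adj₀ j hj).1
  have hcg : ∀ j ≤ w, h / tl (gs j) = ((j : ℝ) - x0) ^ 2 + h ^ 2 - y * (1 - y) := by
    intro j hj
    have h2 := (hD2 V F hM f₀ f₁ T e d hco (gs j) (hch.adj₀ j hj) (hch.adj₁ j hj)).2.2
    have h3 := hch.pos j hj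
    unfold xi at h3
    rw [h3] at h2
    have h4 : y * (1 - y) = tl f₁ * tl f₀ / (tl f₀ + tl f₁) ^ 2 := by
      rw [hydef]
      unfold yy
      field_simp
      ring
    rw [h4, hhdef]
    exact h2
  -- ratios
  have hn1 : 1 < ‖f₁‖ := hM.one_lt_F f₁ hf₁
  have hng : ∀ j ≤ w, 1 < ‖gs j‖ := fun j hj => hM.one_lt_F _ (hgF j hj)
  have hr1 : ∀ D, (h / D) / (tl f₁ / ‖f₁‖) = √(h ^ 2 + (1 - y) ^ 2) / D := fun D =>
    x7_ratio hn1 hpos hc1
  have hrg : ∀ j ≤ w, ∀ D, (h / D) / (tl (gs j) / ‖gs j‖) =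
      √(h ^ 2 + (((j : ℝ) - x0) ^ 2 + h ^ 2 - y * (1 - y)) ^ 2) / D := fun j hj D =>
    x7_ratio (hng j hj) hpos (hcg j hj)
  -- lengths of the vertices of `f₀`
  have htA : ∀ i < w, tl (A i) = h / dA ((i : ℝ) + 1 / 2 - x0) h y := by
    intro i hi
    obtain ⟨a1, a2, a3, a4, a5, -⟩ := hch.hA i hi
    have hpi := hch.pos i hi.le
    have hpi1 := hch.pos (i + 1) hi
    have h3 := (hX3' (A i) a1 (gs i) (gs (i + 1)) (hch.adj₀ i hi.le) (hch.adj₁ i hi.le)
      (hch.adj₀ (i + 1) hi) (hch.adj₁ (i + 1) hi) (by rw [hpi, hpi1]; push_cast; ring) a4 a5).1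
      a2 a3
    rw [h3, hpi]
    congr 2
    ring
  have htW : ∀ v ∈ V, inner ℝ v f₀ ≠ (1 : ℝ) → ∀ i < w, inner ℝ v f₁ = (1 : ℝ) →
      inner ℝ v (gs i) = (1 : ℝ) → inner ℝ v (gs (i + 1)) = (1 : ℝ) →
      tl v = h / dB ((i : ℝ) + 1 / 2 - x0) h y := by
    intro v hv hv0 i hi hv1 hvi hvi1
    have hpi := hch.pos i hi.le
    have hpi1 := hch.pos (i + 1) hi
    have h3 := (hX3' v hv (gs i) (gs (i + 1)) (hch.adj₀ i hi.le) (hch.adj₁ i hi.le)
      (hch.adj₀ (i + 1) hi) (hch.adj₁ (i + 1) hi) (by rw [hpi, hpi1]; push_cast; ring) hvi hvi1).2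
      hv1 hv0
    rw [h3, hpi]
    congr 2
    ring
  obtain ⟨c1, c2, c3, c4, c5, c6⟩ := htC
  obtain ⟨d1, d2, d3, d4, d5, d6⟩ := htC'
  have hAC : ∀ i < w, A i ≠ C := fun i hi hh => (hch.hA i hi).2.2.1 (hh ▸ c3)
  have hAC' : ∀ i < w, A i ≠ C' := fun i hi hh => (hch.hA i hi).2.2.1 (hh ▸ d3)
  -- the sum lemma
  obtain ⟨W, hW⟩ : ∃ W : Finset E3, W = V.filter (fun v => ¬ Inc v f₀) := ⟨_, rfl⟩
  have hWV : ∀ v ∈ W, v ∈ V ∧ inner ℝ v f₀ ≠ (1 : ℝ) := by
    intro v hv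
    rw [hW, Finset.mem_filter] at hv
    exact hv
  have hsum : 3 * ∑ i ∈ Finset.range w, (h / dB ((i : ℝ) + 1 / 2 - x0) h y) ≤
      ∑ v ∈ W, ((fat F Inc v).card : ℝ) * tl v := by
    refine hX5 E3 E3 W Inc tl (fun v => ((fat F Inc v).card : ℝ)) f₁ w gs
      (fun i => h / dB ((i : ℝ) + 1 / 2 - x0) h y) (fun f => tl f / ‖f‖)
      ?_ ?_ ?_ ?_ ?_ ?_ ?_ ?_ ?_ ?_ ?_ ?_ ?_
    · intro v hv
      exact tl_pos (hM.one_lt_V v (hWV v hv).1)
    · intro v hv
      have := hC.deg v (hWV v hv).1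
      exact_mod_cast this
    · intro i hi
      have := tl_pos (hng i hi)
      have h2 := hng i hi
      positivity
    · positivity
    · intro i hi
      exact div_pos hpos (hB _)
    · intro i hi j hj hij
      have h1 := hch.pos i hi
      have h2 := hch.pos j hj
      rw [hij, h2] at h1
      have : (j : ℝ) = i := by linarith
      exact_mod_cast this.symm
    · intro i hi
      exact (hch.adj₁ i hi).2.2.1
    · intro v hv i hi j hj hij hvi hvj
      by_contra hcon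
      have hlt : i + 1 < j := by omega
      have hp1 := hch.pos i hi
      have hp2 := hch.pos (i + 1) (by omega)
      have hp3 := hch.pos j hj
      refine hX2 V F hM f₀ f₁ T e d hco hadj v (hWV v hv).1 (fun hh => (hWV v hv).2 hh.1)
        (gs i) (gs (i + 1)) (gs j) (hch.adj₀ i hi) (hch.adj₁ i hi)
        (hch.adj₀ (i + 1) (by omega)) (hch.adj₁ (i + 1) (by omega)) (hch.adj₀ j hj)
        (hch.adj₁ j hj) ?_ ?_ hvi hvj
      · rw [hp1, hp2]
        push_cast
        linarith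
      · rw [hp2, hp3]
        have : ((i + 1 : ℕ) : ℝ) < j := by exact_mod_cast hlt
        linarith
    · intro v hv i hi h1 h2 h3
      exact htW v (hWV v hv).1 (hWV v hv).2 i hi h1 h2 h3
    · intro v hv v' hv' i hi h1 h2 h3 h1' h2' h3'
      by_contra hcon
      have hg : gs i ≠ gs (i + 1) := by
        intro hh
        have e1 := hch.pos i hi.le
        have e2 := hch.pos (i + 1) hi
        rw [hh, e2] at e1
        push_cast at e1
        linarith
      refine hA3 F V hM.toDP.swap v (hWV v hv).1 v' (hWV v' hv').1 hcon f₁ hf₁ (gs i)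
        (hgF i hi.le) (gs (i + 1)) (hgF (i + 1) hi) (hch.adj₁ i hi.le).2.2.1.symm hg
        (hch.adj₁ (i + 1) hi).2.2.1.symm ?_ ?_ ?_ ?_ ?_ ?_
      all_goals rw [real_inner_comm]; assumption
    · rw [hW]
      rw [x7_split hM hC hf₁ hf₀ hne.symm c1 d1 hch.CC c3 c2 d3 d2, c6, d6]
      have h6 := hX6c w x0 h y hpos hx0 hxw (fun i _ => hB _)
      simp only [hr1]
      linarith
    · intro j hj
      rw [hW]
      have hg0 : gs j ≠ f₀ := (hch.adj₀ j hj).2.2.1
      by_cases hj0 : 0 < j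
      · obtain ⟨k, rfl⟩ : ∃ k, j = k + 1 := ⟨j - 1, by omega⟩
        have hk : k < w := hj
        obtain ⟨a1, a2, a3, a4, a5, -⟩ := hch.hA k hk
        by_cases hjw : k + 1 < w
        · obtain ⟨b1, b2, b3, b4, b5, -⟩ := hch.hA (k + 1) hjw
          have hne' : A k ≠ A (k + 1) := fun hh => by
            have := hch.Ainj k hk (k + 1) hjw hh
            omega
          rw [x7_split hM hC (hgF _ hj) hf₀ hg0 a1 b1 hne' a5 a2 b4 b2, htA k hk, htA (k + 1) hjw,
            if_pos hj0, if_pos hjw]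
          have h6 := hX6a (((k + 1 : ℕ) : ℝ) - x0) h y hpos (hA _) (hA _) (hB _) (hB _)
          simp only [hrg _ hj, Nat.add_sub_cancel]
          have e1 : ((k + 1 : ℕ) : ℝ) - x0 - 1 / 2 = (k : ℝ) + 1 / 2 - x0 := by push_cast; ring
          have e2 : ((k + 1 : ℕ) : ℝ) - x0 + 1 / 2 = ((k + 1 : ℕ) : ℝ) + 1 / 2 - x0 := by ring
          rw [e1, e2] at h6
          linarith
        · have hkw : k + 1 = w := by omega
          have hCg : inner ℝ C (gs (k + 1)) = (1 : ℝ) := by rw [hkw]; exact c4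
          rw [x7_split hM hC (hgF _ hj) hf₀ hg0 a1 c1 (hAC k hk) a5 a2 hCg c2, htA k hk, c6,
            if_pos hj0, if_neg hjw]
          have hxi : 0 < ((k + 1 : ℕ) : ℝ) - x0 := by rw [hkw]; linarith
          have h6 := hX6b (((k + 1 : ℕ) : ℝ) - x0) h y hpos hxi (hA _) (hB _)
          simp only [hrg _ hj, Nat.add_sub_cancel]
          have e1 : ((k + 1 : ℕ) : ℝ) - x0 - 1 / 2 = (k : ℝ) + 1 / 2 - x0 := by push_cast; ring
          rw [e1] at h6
          rw [← hkw]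
          linarith
      · have hj00 : j = 0 := by omega
        subst hj00
        have hw0 : 0 < w := hch.w1
        obtain ⟨a1, a2, a3, a4, a5, -⟩ := hch.hA 0 hw0
        rw [x7_split hM hC (hgF _ hj) hf₀ hg0 a1 d1 (hAC' 0 hw0) a4 a2 d4 d2, htA 0 hw0, d6,
          if_neg hj0, if_pos hw0]
        have h6 := hX6b x0 h y hpos hx0 (hA _) (hB _)
        simp only [hrg _ hj]
        have e1 : dA (((0 : ℕ) : ℝ) + 1 / 2 - x0) h y = dA (x0 - 1 / 2) h y := by
          unfold dA; push_cast; ring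
        have e2 : dB (((0 : ℕ) : ℝ) + 1 / 2 - x0) h y = dB (x0 - 1 / 2) h y := by
          unfold dB; push_cast; ring
        have e3 : (((0 : ℕ) : ℝ) - x0) ^ 2 = x0 ^ 2 := by push_cast; ring
        rw [e1, e2, e3]
        linarith
    · intro i hi
      have h6 := (hX6d ((i : ℝ) + 1 / 2 - x0) h y hh2 hy0.le hyy).2
      simp only [hr1, hrg i hi.le, hrg (i + 1) hi]
      rw [div_pow, div_pow, div_pow, Real.sq_sqrt (by positivity), Real.sq_sqrt (by positivity),
        Real.sq_sqrt (by positivity)]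
      have e1 : (i : ℝ) + 1 / 2 - x0 - 1 / 2 = (i : ℝ) - x0 := by ring
      have e2 : (i : ℝ) + 1 / 2 - x0 + 1 / 2 = ((i + 1 : ℕ) : ℝ) - x0 := by push_cast; ring
      rw [e1, e2] at h6
      exact h6
  -- the vertices of `f₀`
  have hdeg : ∀ v, (star F v).card = 3 → ((fat F Inc v).card : ℝ) = 3 := by
    intro v hv
    have e1 : fat F Inc v = star F v := by
      ext f
      rw [mem_star']
      simp only [fat, Finset.mem_filter, Inc]
    rw [e1, hv]
    norm_num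
  have hV₀ : V.filter (fun v => Inc v f₀) =
      insert C (insert C' ((Finset.range w).image A)) := by
    ext v
    rw [Finset.mem_filter, Finset.mem_insert, Finset.mem_insert, Finset.mem_image]
    constructor
    · rintro ⟨hv, hv0⟩
      rcases hch.allV v hv hv0 with h1 | h1 | ⟨i, hi, h1⟩
      · exact Or.inl h1
      · exact Or.inr (Or.inl h1)
      · exact Or.inr (Or.inr ⟨i, Finset.mem_range.2 hi, h1.symm⟩)
    · rintro (h1 | h1 | ⟨i, hi, h1⟩)
      · rw [h1]; exact ⟨c1, c2⟩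
      · rw [h1]; exact ⟨d1, d2⟩
      · rw [← h1]
        have := hch.hA i (Finset.mem_range.1 hi)
        exact ⟨this.1, this.2.1⟩
  have hsum₀ : ∑ v ∈ V.filter (fun v => Inc v f₀), ((fat F Inc v).card : ℝ) * tl v =
      3 * (h / (w - x0)) + (3 * (h / x0) +
        ∑ i ∈ Finset.range w, 3 * (h / dA ((i : ℝ) + 1 / 2 - x0) h y)) := by
    rw [hV₀, Finset.sum_insert, Finset.sum_insert, Finset.sum_image]
    · rw [hdeg C c5, hdeg C' d5, c6, d6]
      congr 2
      refine Finset.sum_congr rfl (fun i hi => ?_)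
      have hi' := Finset.mem_range.1 hi
      rw [hdeg (A i) (hch.hA i hi').2.2.2.2.2, htA i hi']
    · intro i hi j hj hij
      exact hch.Ainj i (Finset.mem_range.1 hi) j (Finset.mem_range.1 hj) hij
    · rw [Finset.mem_image]
      rintro ⟨i, hi, h1⟩
      exact hAC' i (Finset.mem_range.1 hi) h1
    · rw [Finset.mem_insert, Finset.mem_image]
      rintro (h1 | ⟨i, hi, h1⟩)
      · exact hch.CC h1
      · exact hAC i (Finset.mem_range.1 hi) h1
  have hLen : Len V F (fun v f => inner ℝ v f = (1 : ℝ)) hx =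
      ∑ v ∈ V, ((fat F Inc v).card : ℝ) * tl v := by
    unfold Len
    refine Finset.sum_congr rfl (fun v hv => ?_)
    rw [tl_eq_hx (hM.one_lt_V v hv)]
    rfl
  rw [hLen, ← Finset.sum_filter_add_sum_filter_not V (fun v => Inc v f₀), hsum₀]
  rw [hW] at hsum
  refine le_trans (le_of_eq ?_) (add_le_add_right hsum _)
  have hs : h * ∑ i ∈ Finset.range w, (1 / dA ((i : ℝ) + 1 / 2 - x0) h y +
      1 / dB ((i : ℝ) + 1 / 2 - x0) h y) =
      ∑ i ∈ Finset.range w, h / dA ((i : ℝ) + 1 / 2 - x0) h y +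
      ∑ i ∈ Finset.range w, h / dB ((i : ℝ) + 1 / 2 - x0) h y := by
    rw [Finset.mul_sum, ← Finset.sum_add_distrib]
    refine Finset.sum_congr rfl (fun i _ => ?_)
    ring
  have hs3 : ∑ i ∈ Finset.range w, 3 * (h / dA ((i : ℝ) + 1 / 2 - x0) h y) =
      3 * ∑ i ∈ Finset.range w, h / dA ((i : ℝ) + 1 / 2 - x0) h y := by
    rw [Finset.mul_sum]
  unfold Lex
  rw [hs3]
  linear_combination 3 * hs

end Pool.Agent.Lib.MP_af06f6_co
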