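import Mathlib
import Pool.Agent.Lib.MP_af06f6_co.X.Stm
import Pool.Agent.Lib.MP_af06f6_co.Tools.PBernMain

/-! Piece X8: summary of the real analysis of the exact case. -/

open Set AF06.Bern AF06.PB

namespace Pool.Agent.Lib.MP_af06f6_co

theorem pf_X8 (ha : Stm_X8a) (hb : Stm_X8b) (hc : Stm_X8c) (hd : Stm_X8d) (he : Stm_X8e) (hf : Stm_X8f)
    (hg : Stm_X8g) : Stm_X8 := by
  intro w x0 h y hw hx0 hxw hh hy hyh h3 h34
  have hy2 : y ^ 2 ≤ (0.1052 * h) ^ 2 := pow_le_pow_left₀ hy.le hyh 2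
  have hH : 0.74 ≤ h ^ 2 := by nlinarith
  have hy183 : y ≤ 0.183 := by
    by_contra hn
    push Not at hn
    nlinarith
  have key : ∀ n : ℕ, ∀ x : ℝ, 1 ≤ n → 0 < x → x < n →
      (∃ w' : ℝ, 1 < w' ∧ FF w' ≤ Lex n x h 0) ∨ 14.97 ≤ Lex n x h 0 := by
    intro n
    induction n using Nat.strong_induction_on with
    | _ n ih =>
      intro x hn hx hxn
      by_cases h5 : 5 ≤ n
      · obtain ⟨x', h1, h2, h3'⟩ := hb n x h h5 hx hxn hh hH h3
        rcases ih (n - 1) (by omega) x' (by omega) h1 h2 with ⟨w', hw', hF⟩ | hL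
        · exact Or.inl ⟨w', hw', hF.trans h3'⟩
        · exact Or.inr (hL.trans h3')
      · have : n = 1 ∨ n = 2 ∨ n = 3 ∨ n = 4 := by omega
        rcases this with rfl | rfl | rfl | rfl
        · exact Or.inr (hc x h hx (by simpa using hxn) hh hH h3)
        · exact Or.inr (hd x h hx (by simpa using hxn) hh hH h3)
        · rcases le_total (1.35 : ℝ) (h ^ 2) with h135 | h135
          · refine Or.inl ⟨2 * h, ?_, hf x h hx (by simpa using hxn) hh h135 h3⟩
            nlinarith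
          · exact Or.inr (hg x h hx (by simpa using hxn) hh hH h135)
        · exact Or.inr (he x h hx (by simpa using hxn) hh hH h3)
  have hlt := ha w x0 h y hw hx0 hxw hh hH hy hy183
  rcases key w x0 hw hx0 hxw with ⟨w', hw', hF⟩ | hL
  · exact Or.inl ⟨w', hw', lt_of_le_of_lt hF hlt⟩
  · exact Or.inr (lt_of_le_of_lt hL hlt)

theorem pf_X8m : Stm_X8m := by
  have hcont : ContinuousOn FF (Icc 1.1 8) := by
    unfold FF
    intro w hw
    have hw1 : (1.1 : ℝ) ≤ w := hw.1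
    have h1 : w ^ 2 + 3 ≠ 0 := by positivity
    have h2 : w ^ 2 - 1 ≠ 0 := by nlinarith
    have h3 : w ^ 2 + 7 ≠ 0 := by positivity
    apply ContinuousAt.continuousWithinAt
    fun_prop (disch := assumption)
  obtain ⟨w₀, hw₀, hmin⟩ := isCompact_Icc.exists_isMinOn (nonempty_Icc.mpr (by norm_num)) hcont
  have h27 : FF w₀ ≤ 16 := by
    have h1 : FF w₀ ≤ FF 2.7 := hmin (by constructor <;> norm_num)
    have h2 : FF 2.7 ≤ 16 := by
      unfold FF
      norm_num
    exact h1.trans h2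
  refine ⟨w₀, by linarith [hw₀.1], fun w hw => ?_⟩
  by_cases ha : w < 1.1
  · refine h27.trans ?_
    unfold FF
    have h1 : 0 < w ^ 2 - 1 := by nlinarith
    have h2 : 0 ≤ 18 * w / (w ^ 2 + 3) := by positivity
    have h3 : 0 ≤ 12 * w / (w ^ 2 + 7) := by positivity
    have h4 : 16 ≤ 6 * w / (w ^ 2 - 1) := by
      rw [le_div_iff₀ h1]
      nlinarith
    linarith
  · by_cases hb : 8 < w
    · refine h27.trans ?_
      unfold FF
      have h1 : 0 < w ^ 2 - 1 := by nlinarith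
      have h2 : 0 ≤ 18 * w / (w ^ 2 + 3) := by positivity
      have h3 : 0 ≤ 12 * w / (w ^ 2 + 7) := by positivity
      have h4 : 0 ≤ 6 * w / (w ^ 2 - 1) := by positivity
      linarith
    · exact hmin ⟨not_lt.mp ha, not_lt.mp hb⟩

/-- the numerator of `FF w - 14.96586` -/
private def X8e : PE :=
  .sub (.add (.add (.add
    (.mul (.mul (.q 2 1) .x) (.mul (.mul (.add (.pow .x 2) (.q 3 1)) (.sub (.pow .x 2) (.q 1 1))) (.add (.pow .x 2) (.q 7 1))))
    (.mul (.mul (.q 18 1) .x) (.mul (.sub (.pow .x 2) (.q 1 1)) (.add (.pow .x 2) (.q 7 1)))))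
    (.mul (.mul (.q 6 1) .x) (.mul (.add (.pow .x 2) (.q 3 1)) (.add (.pow .x 2) (.q 7 1)))))
    (.mul (.mul (.q 12 1) .x) (.mul (.add (.pow .x 2) (.q 3 1)) (.sub (.pow .x 2) (.q 1 1)))))
    (.mul (.q 1496586 100000) (.mul (.mul (.add (.pow .x 2) (.q 3 1)) (.sub (.pow .x 2) (.q 1 1))) (.add (.pow .x 2) (.q 7 1))))

theorem pf_X8n : ∀ w : ℝ, 1 < w → 14.96586 < FF w := by
  intro w hw
  have h1 : 0 < w ^ 2 - 1 := by nlinarith
  have h2 : 0 < w ^ 2 + 3 := by positivity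
  have h3 : 0 < w ^ 2 + 7 := by positivity
  by_cases hb : 8 < w
  · unfold FF
    have h2 : 0 ≤ 18 * w / (w ^ 2 + 3) := by positivity
    have h3 : 0 ≤ 12 * w / (w ^ 2 + 7) := by positivity
    have h4 : 0 ≤ 6 * w / (w ^ 2 - 1) := by positivity
    linarith
  · push Not at hb
    have key := pos_of_kpos X8e 1 8 1 0 1 1 30 (by decide +kernel) w 0 (by simpa using hw.le)
      (by simpa using hb) (by simp) (by simp)
    norm_num [X8e, PE.eval] at key
    have e : FF w = (2 * w * ((w ^ 2 + 3) * (w ^ 2 - 1) * (w ^ 2 + 7)) + 18 * w * ((w ^ 2 - 1) * (w ^ 2 + 7)) +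
        6 * w * ((w ^ 2 + 3) * (w ^ 2 + 7)) + 12 * w * ((w ^ 2 + 3) * (w ^ 2 - 1))) /
        ((w ^ 2 + 3) * (w ^ 2 - 1) * (w ^ 2 + 7)) := by
      unfold FF
      field_simp
    rw [e, lt_div_iff₀ (by positivity)]
    norm_num
    linarith

end Pool.Agent.Lib.MP_af06f6_co
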