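import Mathlib
import Pool.Agent.Lib.MP_af06f6_co.X.Stm

/-!
# MP_af06f6_co, exact case: the pieces X8a and X8b
-/

open Set

namespace Pool.Agent.Lib.MP_af06f6_co

/-- one interstice: moving `y` away from `0` makes the two terms larger -/
theorem pf_X8a_aux (E y : ℝ) (hE : 0.49 ≤ E) (hy : 0 < y) (hy2 : y ≤ 0.183) :
    1 / E + 1 / (E + 1) < 1 / (E + y ^ 2) + 1 / (E + (1 - y) ^ 2) := by
  have hE0 : 0 < E := by norm_num at hE ⊢; linarith
  have hE1 : 0 < E + 1 := by linarith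
  have h1 : 0 < E + y ^ 2 := by positivity
  have h2 : 0 < E + (1 - y) ^ 2 := by positivity
  have hq : E + 1 ≤ E * (149 / 49) := by norm_num at hE ⊢; linarith
  have hq2 : (E + 1) ^ 2 ≤ (E * (149 / 49)) ^ 2 := by
    exact pow_le_pow_left₀ hE1.le hq 2
  have hkey : y * (E + 1) ^ 2 < (2 - y) * E ^ 2 := by
    have hE2 : 0 < E ^ 2 := by positivity
    have h3 : y * (E + 1) ^ 2 ≤ y * (E * (149 / 49)) ^ 2 := mul_le_mul_of_nonneg_left hq2 hy.le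
    have h4 : y * (E * (149 / 49)) ^ 2 = (y * (149 / 49) ^ 2) * E ^ 2 := by ring
    have h5 : y * (149 / 49) ^ 2 < 2 - y := by norm_num at hy2 ⊢; linarith
    calc y * (E + 1) ^ 2 ≤ (y * (149 / 49) ^ 2) * E ^ 2 := by rw [← h4]; exact h3
      _ < (2 - y) * E ^ 2 := mul_lt_mul_of_pos_right h5 hE2
  have hy1 : y ≤ 1 := by norm_num at hy2 ⊢; linarith
  have h6 : (E + 1) * (E + (1 - y) ^ 2) ≤ (E + 1) ^ 2 := by
    have : (1 - y) ^ 2 ≤ 1 := by nlinarith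
    nlinarith
  have h7 : E ^ 2 ≤ E * (E + y ^ 2) := by nlinarith [sq_nonneg y]
  have h8 : y * ((E + 1) * (E + (1 - y) ^ 2)) < (2 - y) * (E * (E + y ^ 2)) := by
    calc y * ((E + 1) * (E + (1 - y) ^ 2)) ≤ y * (E + 1) ^ 2 := mul_le_mul_of_nonneg_left h6 hy.le
      _ < (2 - y) * E ^ 2 := hkey
      _ ≤ (2 - y) * (E * (E + y ^ 2)) := mul_le_mul_of_nonneg_left h7 (by linarith)
  have hid : 1 / (E + y ^ 2) + 1 / (E + (1 - y) ^ 2) - (1 / E + 1 / (E + 1)) =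
      y * ((2 - y) * (E * (E + y ^ 2)) - y * ((E + 1) * (E + (1 - y) ^ 2))) /
        ((E * (E + y ^ 2)) * ((E + 1) * (E + (1 - y) ^ 2))) := by
    field_simp
    ring
  have hpos : 0 < 1 / (E + y ^ 2) + 1 / (E + (1 - y) ^ 2) - (1 / E + 1 / (E + 1)) := by
    rw [hid]
    have : 0 < (2 - y) * (E * (E + y ^ 2)) - y * ((E + 1) * (E + (1 - y) ^ 2)) := by linarith
    positivity
  linarith

theorem pf_X8a : Stm_X8a := by
  intro w x0 h y hw hx0 hx0w hh hh2 hy hy2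
  unfold Lex
  apply mul_lt_mul_of_pos_left _ (by positivity)
  apply add_lt_add_of_le_of_lt le_rfl
  apply Finset.sum_lt_sum_of_nonempty
  · exact ⟨0, Finset.mem_range.mpr (by omega)⟩
  · intro i _
    set d : ℝ := (i : ℝ) + 1 / 2 - x0 with hd
    have hE : 0.49 ≤ d ^ 2 + h ^ 2 - 1 / 4 := by
      have := sq_nonneg d
      norm_num at hh2 ⊢
      linarith
    have := pf_X8a_aux (d ^ 2 + h ^ 2 - 1 / 4) y hE hy hy2
    have e1 : dA d h 0 = d ^ 2 + h ^ 2 - 1 / 4 := by unfold dA; ring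
    have e2 : dB d h 0 = d ^ 2 + h ^ 2 - 1 / 4 + 1 := by unfold dB; ring
    have e3 : dA d h y = d ^ 2 + h ^ 2 - 1 / 4 + y ^ 2 := by unfold dA; ring
    have e4 : dB d h y = d ^ 2 + h ^ 2 - 1 / 4 + (1 - y) ^ 2 := by unfold dB; ring
    rw [e1, e2, e3, e4]
    exact this

/-- reflecting the chain -/
theorem pf_X8b_symm (w : ℕ) (x0 h y : ℝ) : Lex w (w - x0) h y = Lex w x0 h y := by
  unfold Lex
  have hs : ∑ i ∈ Finset.range w, (1 / dA ((i : ℝ) + 1 / 2 - (w - x0)) h y +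
        1 / dB ((i : ℝ) + 1 / 2 - (w - x0)) h y) =
      ∑ i ∈ Finset.range w, (1 / dA ((i : ℝ) + 1 / 2 - x0) h y + 1 / dB ((i : ℝ) + 1 / 2 - x0) h y) := by
    rw [← Finset.sum_range_reflect]
    apply Finset.sum_congr rfl
    intro i hi
    have hi' : i < w := Finset.mem_range.mp hi
    have hc : ((w - 1 - i : ℕ) : ℝ) = (w : ℝ) - 1 - i := by
      rw [Nat.sub_sub, Nat.cast_sub (by omega)]
      push_cast
      ring
    have e1 : dA (((w - 1 - i : ℕ) : ℝ) + 1 / 2 - (w - x0)) h y = dA ((i : ℝ) + 1 / 2 - x0) h y := by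
      rw [hc]; unfold dA; ring
    have e2 : dB (((w - 1 - i : ℕ) : ℝ) + 1 / 2 - (w - x0)) h y = dB ((i : ℝ) + 1 / 2 - x0) h y := by
      rw [hc]; unfold dB; ring
    rw [e1, e2]
  rw [hs]
  have e3 : (w : ℝ) - ((w : ℝ) - x0) = x0 := by ring
  rw [e3]
  ring

/-- dropping the last interstice -/
theorem pf_X8b_core (n : ℕ) (x0 h : ℝ) (hn : 4 ≤ n) (hx0 : 0 < x0) (hx : x0 ≤ ((n : ℝ) + 1) / 2) (hh : 0 < h)
    (hh2 : h ^ 2 ≤ 3) : Lex n x0 h 0 ≤ Lex (n + 1) x0 h 0 := by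
  unfold Lex
  apply mul_le_mul_of_nonneg_left _ (by positivity)
  rw [Finset.sum_range_succ]
  have hn' : (4 : ℝ) ≤ n := by exact_mod_cast hn
  obtain ⟨r, hr⟩ : ∃ r : ℝ, r = (n : ℝ) - x0 := ⟨_, rfl⟩
  have hr1 : 3 / 2 ≤ r := by rw [hr]; linarith
  have hr0 : 0 < r := by linarith
  have e1 : dA ((n : ℝ) + 1 / 2 - x0) h 0 = r * (r + 1) + h ^ 2 := by
    unfold dA; rw [hr]; ring
  have e2 : dB ((n : ℝ) + 1 / 2 - x0) h 0 = r * (r + 1) + h ^ 2 + 1 := by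
    unfold dB; rw [hr]; ring
  have e3 : ((n + 1 : ℕ) : ℝ) - x0 = r + 1 := by push_cast; rw [hr]; ring
  rw [e1, e2, e3, ← hr]
  obtain ⟨H, hH⟩ : ∃ H : ℝ, H = h ^ 2 := ⟨_, rfl⟩
  have hH0 : 0 ≤ H := by rw [hH]; positivity
  have hH3 : H ≤ 3 := by rw [hH]; exact hh2
  rw [← hH]
  obtain ⟨s, hs⟩ : ∃ s : ℝ, s = r * (r + 1) := ⟨_, rfl⟩
  have hs1 : 15 / 4 ≤ s := by rw [hs]; nlinarith
  have hs0 : 0 < s := by linarith
  have e4 : 1 / r = 1 / (r + 1) + 1 / s := by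
    rw [hs]
    field_simp
  have hmain : 1 / s ≤ 1 / (s + H) + 1 / (s + H + 1) := by
    have hd : 1 / (s + H) + 1 / (s + H + 1) - 1 / s =
        (s ^ 2 - H * (H + 1)) / (s * ((s + H) * (s + H + 1))) := by
      have : s + H ≠ 0 := by positivity
      have : s + H + 1 ≠ 0 := by positivity
      field_simp
      ring
    have h1 : 0 ≤ s ^ 2 - H * (H + 1) := by nlinarith
    have h2 : 0 ≤ (s ^ 2 - H * (H + 1)) / (s * ((s + H) * (s + H + 1))) := by positivity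
    linarith
  rw [← hs, e4]
  linarith

theorem pf_X8b : Stm_X8b := by
  intro w x0 h hw hx0 hx0w hh _ hh3
  obtain ⟨n, rfl⟩ : ∃ n, w = n + 1 := ⟨w - 1, by omega⟩
  have hn : 4 ≤ n := by omega
  have hn' : (4 : ℝ) ≤ n := by exact_mod_cast hn
  have hc : ((n + 1 - 1 : ℕ) : ℝ) = n := by simp
  have hcw : ((n + 1 : ℕ) : ℝ) = (n : ℝ) + 1 := by push_cast; ring
  rw [hcw] at hx0w
  rw [hc, Nat.add_sub_cancel]
  by_cases hx : x0 ≤ ((n : ℝ) + 1) / 2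
  · exact ⟨x0, hx0, by linarith, pf_X8b_core n x0 h hn hx0 hx hh hh3⟩
  · push Not at hx
    refine ⟨((n + 1 : ℕ) : ℝ) - x0, by rw [hcw]; linarith, by rw [hcw]; linarith, ?_⟩
    rw [← pf_X8b_symm (n + 1) x0 h 0]
    exact pf_X8b_core n _ h hn (by rw [hcw]; linarith) (by rw [hcw]; linarith) hh hh3

end Pool.Agent.Lib.MP_af06f6_co
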