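import Mathlib
import Pool.Agent.Lib.MP_af06f6_co.X.Stm
import Pool.Agent.Lib.MP_af06f6_co.Tools.PBernMain

open AF06.Bern AF06.PB

namespace Pool.Agent.Lib.MP_af06f6_co

theorem pf_X8c : Stm_X8c := by
  intro x0 h hx0 hx1 hh h1 h2
  have hge : (0.86 : ℝ) ≤ h := by
    by_contra hlt
    push Not at hlt
    nlinarith
  have hL : Lex 1 x0 h 0 = 3 * h * (1 / x0 + 1 / (1 - x0) +
      (1 / ((1 / 2 - x0) ^ 2 + h ^ 2 - 1 / 4) + 1 / ((1 / 2 - x0) ^ 2 + h ^ 2 + 3 / 4))) := by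
    unfold Lex dA dB
    rw [Finset.sum_range_one]
    have c1 : ((0 : ℕ) : ℝ) + 1 / 2 - x0 = 1 / 2 - x0 := by push_cast; ring
    have c2 : (1 / 2 - x0) ^ 2 + (0 : ℝ) ^ 2 + h ^ 2 - 1 / 4 = (1 / 2 - x0) ^ 2 + h ^ 2 - 1 / 4 := by
      ring
    have c3 : (1 / 2 - x0) ^ 2 + (1 - (0 : ℝ)) ^ 2 + h ^ 2 - 1 / 4 =
        (1 / 2 - x0) ^ 2 + h ^ 2 + 3 / 4 := by ring
    rw [c1, c2, c3, Nat.cast_one]
  rw [hL]
  set u : ℝ := (1 / 2 - x0) ^ 2 with hu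
  have hu0 : 0 ≤ u := sq_nonneg _
  have hu1 : u < 1 / 4 := by
    rw [hu]
    nlinarith
  have hpos : 0 < x0 * (1 - x0) := mul_pos hx0 (by linarith)
  have e1 : 1 / x0 + 1 / (1 - x0) = 1 / (1 / 4 - u) := by
    have h3 : (1 : ℝ) / 4 - u = x0 * (1 - x0) := by rw [hu]; ring
    rw [h3]
    have h4 : x0 ≠ 0 := hx0.ne'
    have h5 : 1 - x0 ≠ 0 := by linarith
    field_simp
    ring
  have e2 : 4 + 1 / (h ^ 2 - 1 / 4) ≤ 1 / (1 / 4 - u) + 1 / (u + h ^ 2 - 1 / 4) := by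
    have h3 : 0 < 1 / 4 - u := by linarith
    have h4 : 0 < u + h ^ 2 - 1 / 4 := by nlinarith
    have h5 : 0 < h ^ 2 - 1 / 4 := by nlinarith
    have h6 : 1 / (1 / 4 - u) + 1 / (u + h ^ 2 - 1 / 4) =
        h ^ 2 / ((1 / 4 - u) * (u + h ^ 2 - 1 / 4)) := by
      rw [div_add_div _ _ h3.ne' h4.ne']
      congr 1
      ring
    have h7 : 4 + 1 / (h ^ 2 - 1 / 4) = h ^ 2 / (1 / 4 * (h ^ 2 - 1 / 4)) := by
      rw [eq_div_iff (mul_pos (by norm_num) h5).ne', add_mul]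
      have h8 : 1 / (h ^ 2 - 1 / 4) * (1 / 4 * (h ^ 2 - 1 / 4)) =
          1 / 4 * (1 / (h ^ 2 - 1 / 4) * (h ^ 2 - 1 / 4)) := by ring
      rw [h8, one_div_mul_cancel h5.ne']
      ring
    rw [h6, h7]
    apply div_le_div_of_nonneg_left (by positivity) (by positivity)
    nlinarith
  have e3 : 1 / (h ^ 2 + 1) ≤ 1 / (u + h ^ 2 + 3 / 4) := by
    apply one_div_le_one_div_of_le
    · nlinarith
    · linarith
  have e4 : (14.97 : ℝ) ≤ 3 * h * (4 + 1 / (h ^ 2 - 1 / 4) + 1 / (h ^ 2 + 1)) := by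
    have h5 : 0 < h ^ 2 - 1 / 4 := by nlinarith
    have h6 : 0 < h ^ 2 + 1 := by positivity
    have h7 : 3 * h * (4 + 1 / (h ^ 2 - 1 / 4) + 1 / (h ^ 2 + 1)) =
        3 * h * (4 * h ^ 4 + 5 * h ^ 2 - 1 / 4) / ((h ^ 2 - 1 / 4) * (h ^ 2 + 1)) := by
      rw [eq_div_iff (mul_pos h5 h6).ne']
      have h8 : 3 * h * (4 + 1 / (h ^ 2 - 1 / 4) + 1 / (h ^ 2 + 1)) *
          ((h ^ 2 - 1 / 4) * (h ^ 2 + 1)) =
          3 * h * (4 * ((h ^ 2 - 1 / 4) * (h ^ 2 + 1)) +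
            (1 / (h ^ 2 - 1 / 4) * (h ^ 2 - 1 / 4)) * (h ^ 2 + 1) +
            (1 / (h ^ 2 + 1) * (h ^ 2 + 1)) * (h ^ 2 - 1 / 4)) := by ring
      rw [h8, one_div_mul_cancel h5.ne', one_div_mul_cancel h6.ne']
      ring
    rw [h7, le_div_iff₀ (mul_pos h5 h6)]
    obtain ⟨t, ht⟩ : ∃ t : ℝ, h = 0.86 + t := ⟨h - 0.86, by ring⟩
    have ht0 : 0 ≤ t := by linarith
    subst ht
    ring_nf
    have a2 : 0 ≤ t ^ 2 := by positivity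
    have a3 : 0 ≤ t ^ 3 := by positivity
    have a4 : 0 ≤ t ^ 4 := by positivity
    have a5 : 0 ≤ t ^ 5 := by positivity
    nlinarith
  rw [e1]
  have e5 : 4 + 1 / (h ^ 2 - 1 / 4) + 1 / (h ^ 2 + 1) ≤
      1 / (1 / 4 - u) + (1 / (u + h ^ 2 - 1 / 4) + 1 / (u + h ^ 2 + 3 / 4)) := by linarith
  have e6 := mul_le_mul_of_nonneg_left e5 (by positivity : (0 : ℝ) ≤ 3 * h)
  linarith

private def x8_A : PE := .add (.pow .y 2) .x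
private def x8_B : PE := .add x8_A (.q 1 1)
private def x8_a : PE := .sub (.pow x8_A 2) .x
private def x8_b : PE := .sub (.pow x8_B 2) .x
private def x8_s : PE := .sub (.q 1 1) .x
private def x8_e : PE := .sub (.mul (.mul (.q 6 1) .y) (.add (.mul x8_a x8_b)
  (.add (.mul (.mul x8_A x8_s) x8_b) (.mul (.mul x8_B x8_s) x8_a))))
  (.mul (.q 1497 100) (.mul x8_s (.mul x8_a x8_b)))

private theorem x8_key (s h : ℝ) (hs0 : 0 ≤ s) (hs1 : s ≤ 1) (h0 : 0.86 ≤ h) (h1 : h ≤ 1.74) :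
    0 < 6 * h * (((h ^ 2 + s) ^ 2 - s) * ((h ^ 2 + s + 1) ^ 2 - s) +
      ((h ^ 2 + s) * (1 - s) * ((h ^ 2 + s + 1) ^ 2 - s) +
        (h ^ 2 + s + 1) * (1 - s) * ((h ^ 2 + s) ^ 2 - s))) -
      1497 / 100 * ((1 - s) * (((h ^ 2 + s) ^ 2 - s) * ((h ^ 2 + s + 1) ^ 2 - s))) := by
  have := pos_of_kpos x8_e 0 1 1 86 174 100 30 (by decide +kernel) s h (by simpa using hs0)
    (by simpa using hs1) (by norm_num at h0 ⊢; exact h0) (by norm_num at h1 ⊢; exact h1)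
  simpa [x8_e, x8_A, x8_B, x8_a, x8_b, x8_s, PE.eval] using this

theorem pf_X8d : Stm_X8d := by
  intro x0 h hx0 hx2 hh h1 h2
  have hge : (0.86 : ℝ) ≤ h := by
    by_contra hlt
    push Not at hlt
    nlinarith
  have hle : h ≤ 1.74 := by
    by_contra hlt
    push Not at hlt
    nlinarith
  obtain ⟨u, hu⟩ : ∃ u : ℝ, x0 = 1 + u := ⟨x0 - 1, by ring⟩
  subst hu
  have hL : Lex 2 (1 + u) h 0 = 3 * h * (1 / (1 + u) + 1 / (1 - u) +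
      (1 / (h ^ 2 + u ^ 2 + u) + 1 / (h ^ 2 + u ^ 2 + 1 + u) +
        (1 / (h ^ 2 + u ^ 2 - u) + 1 / (h ^ 2 + u ^ 2 + 1 - u)))) := by
    unfold Lex dA dB
    rw [Finset.sum_range_succ, Finset.sum_range_one]
    have c1 : ((0 : ℕ) : ℝ) + 1 / 2 - (1 + u) = - (1 / 2 + u) := by push_cast; ring
    have c2 : ((1 : ℕ) : ℝ) + 1 / 2 - (1 + u) = 1 / 2 - u := by push_cast; ring
    have c3 : ((2 : ℕ) : ℝ) - (1 + u) = 1 - u := by push_cast; ring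
    rw [c1, c2, c3]
    have d1 : (- (1 / 2 + u)) ^ 2 + (0 : ℝ) ^ 2 + h ^ 2 - 1 / 4 = h ^ 2 + u ^ 2 + u := by ring
    have d2 : (- (1 / 2 + u)) ^ 2 + (1 - (0 : ℝ)) ^ 2 + h ^ 2 - 1 / 4 =
        h ^ 2 + u ^ 2 + 1 + u := by ring
    have d3 : (1 / 2 - u) ^ 2 + (0 : ℝ) ^ 2 + h ^ 2 - 1 / 4 = h ^ 2 + u ^ 2 - u := by ring
    have d4 : (1 / 2 - u) ^ 2 + (1 - (0 : ℝ)) ^ 2 + h ^ 2 - 1 / 4 =
        h ^ 2 + u ^ 2 + 1 - u := by ring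
    rw [d1, d2, d3, d4]
  rw [hL]
  have hs1 : u ^ 2 < 1 := by nlinarith
  have hs0 : 0 ≤ u ^ 2 := sq_nonneg u
  have key := x8_key (u ^ 2) h hs0 hs1.le hge hle
  have p1 : 0 < 1 + u := hx0
  have p2 : 0 < 1 - u := by linarith
  have p3 : 0 < h ^ 2 + u ^ 2 + u := by nlinarith [sq_nonneg (u + 1 / 2)]
  have p4 : 0 < h ^ 2 + u ^ 2 + 1 + u := by linarith
  have p5 : 0 < h ^ 2 + u ^ 2 - u := by nlinarith [sq_nonneg (u - 1 / 2)]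
  have p6 : 0 < h ^ 2 + u ^ 2 + 1 - u := by linarith
  have hq : 3 * h * (1 / (1 + u) + 1 / (1 - u) +
      (1 / (h ^ 2 + u ^ 2 + u) + 1 / (h ^ 2 + u ^ 2 + 1 + u) +
        (1 / (h ^ 2 + u ^ 2 - u) + 1 / (h ^ 2 + u ^ 2 + 1 - u)))) =
      (6 * h * (((h ^ 2 + u ^ 2) ^ 2 - u ^ 2) * ((h ^ 2 + u ^ 2 + 1) ^ 2 - u ^ 2) +
      ((h ^ 2 + u ^ 2) * (1 - u ^ 2) * ((h ^ 2 + u ^ 2 + 1) ^ 2 - u ^ 2) +
        (h ^ 2 + u ^ 2 + 1) * (1 - u ^ 2) * ((h ^ 2 + u ^ 2) ^ 2 - u ^ 2)))) /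
      (((1 + u) * (1 - u)) * (((h ^ 2 + u ^ 2 + u) * (h ^ 2 + u ^ 2 - u)) *
        ((h ^ 2 + u ^ 2 + 1 + u) * (h ^ 2 + u ^ 2 + 1 - u)))) := by
    field_simp
    ring
  rw [hq, le_div_iff₀ (by positivity)]
  have hd : ((1 + u) * (1 - u)) * (((h ^ 2 + u ^ 2 + u) * (h ^ 2 + u ^ 2 - u)) *
        ((h ^ 2 + u ^ 2 + 1 + u) * (h ^ 2 + u ^ 2 + 1 - u))) =
      (1 - u ^ 2) * (((h ^ 2 + u ^ 2) ^ 2 - u ^ 2) * ((h ^ 2 + u ^ 2 + 1) ^ 2 - u ^ 2)) := by ring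
  rw [hd]
  norm_num
  linarith

end Pool.Agent.Lib.MP_af06f6_co
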