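import Mathlib
import Pool.Agent.Lib.MP_af06f6_co.X.Stm
import Pool.Agent.Lib.MP_af06f6_co.Tools.PBernMain

/-!
# MP_af06f6_co, exact case, piece X8e
-/

open Set AF06.Bern AF06.PB

namespace Pool.Agent.Lib.MP_af06f6_co

private lemma x8e_frac5 {K c a1 a2 a3 a4 a5 D1 D2 D3 D4 D5 : ℝ} (h1 : 0 < D1) (h2 : 0 < D2) (h3 : 0 < D3) (h4 : 0 < D4)
    (h5 : 0 < D5) (h : 0 < c * (a1 * (D2 * D3 * D4 * D5) + a2 * (D1 * D3 * D4 * D5) + a3 * (D1 * D2 * D4 * D5) +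
      a4 * (D1 * D2 * D3 * D5) + a5 * (D1 * D2 * D3 * D4)) - K * (D1 * D2 * D3 * D4 * D5)) :
    K ≤ c * (a1 / D1 + a2 / D2 + a3 / D3 + a4 / D4 + a5 / D5) := by
  have e : c * (a1 / D1 + a2 / D2 + a3 / D3 + a4 / D4 + a5 / D5) =
      (c * (a1 * (D2 * D3 * D4 * D5) + a2 * (D1 * D3 * D4 * D5) + a3 * (D1 * D2 * D4 * D5) +
      a4 * (D1 * D2 * D3 * D5) + a5 * (D1 * D2 * D3 * D4))) / (D1 * D2 * D3 * D4 * D5) := by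
    field_simp
  rw [e, le_div_iff₀ (by positivity)]
  linarith

/-- `H + k + s`, with `s = x`, `H = y ^ 2` -/
private def x8eL (k : ℤ) : PE := .add (.add (.pow .y 2) (.q k 1)) .x
private def x8eD1 : PE := .sub (.q 4 1) .x
private def x8eD (k m : ℤ) : PE := .sub (.pow (x8eL k) 2) (.mul (.q m 1) .x)

private def x8eE : PE :=
  .sub (.mul (.mul (.q 3 1) .y)
    (.add (.add (.add (.add
      (.mul (.q 4 1) (.mul (.mul (.mul (x8eD 0 1) (x8eD 1 1)) (x8eD 2 9)) (x8eD 3 9)))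
      (.mul (.mul (.q 2 1) (x8eL 0)) (.mul (.mul (.mul x8eD1 (x8eD 1 1)) (x8eD 2 9)) (x8eD 3 9))))
      (.mul (.mul (.q 2 1) (x8eL 1)) (.mul (.mul (.mul x8eD1 (x8eD 0 1)) (x8eD 2 9)) (x8eD 3 9))))
      (.mul (.mul (.q 2 1) (x8eL 2)) (.mul (.mul (.mul x8eD1 (x8eD 0 1)) (x8eD 1 1)) (x8eD 3 9))))
      (.mul (.mul (.q 2 1) (x8eL 3)) (.mul (.mul (.mul x8eD1 (x8eD 0 1)) (x8eD 1 1)) (x8eD 2 9)))))
    (.mul (.q 1497 100) (.mul (.mul (.mul (.mul x8eD1 (x8eD 0 1)) (x8eD 1 1)) (x8eD 2 9)) (x8eD 3 9)))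

private theorem x8eE_pos (s h : ℝ) (h1 : 0 ≤ s) (h2 : s ≤ 4) (h3 : 43 / 50 ≤ h) (h4 : h ≤ 17321 / 10000) :
    0 < x8eE.eval s h := by
  have := pos_of_kpos x8eE 0 4 1 8600 17321 10000 24 (by decide +kernel) s h (by simpa using h1)
    (by simpa using h2) (by norm_num; linarith) (by norm_num; linarith)
  exact this

private lemma x8e_pair {a b : ℝ} (h1 : 0 < a + b) (h2 : 0 < a - b) : 1 / (a + b) + 1 / (a - b) = 2 * a / (a ^ 2 - b ^ 2) := by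
  have e : a ^ 2 - b ^ 2 = (a + b) * (a - b) := by ring
  rw [e]
  field_simp
  ring

theorem pf_X8e : Stm_X8e := by
  intro x0 h hx0 hx4 hh h1 h2
  obtain ⟨u, rfl⟩ : ∃ u, x0 = 2 + u := ⟨x0 - 2, by ring⟩
  have hs4 : u ^ 2 < 4 := by nlinarith
  have hs0 : 0 ≤ u ^ 2 := sq_nonneg u
  have hlo : 43 / 50 ≤ h := by nlinarith
  have hhi : h ≤ 17321 / 10000 := by nlinarith
  have k1 : 0 < h ^ 2 + u ^ 2 + u := by nlinarith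
  have k2 : 0 < h ^ 2 + u ^ 2 - u := by nlinarith
  have k3 : 0 < h ^ 2 + 1 + u ^ 2 + u := by nlinarith
  have k4 : 0 < h ^ 2 + 1 + u ^ 2 - u := by nlinarith
  have k5 : 0 < h ^ 2 + 2 + u ^ 2 + 3 * u := by nlinarith [sq_nonneg (u + 3 / 2)]
  have k6 : 0 < h ^ 2 + 2 + u ^ 2 - 3 * u := by nlinarith [sq_nonneg (u - 3 / 2)]
  have k7 : 0 < h ^ 2 + 3 + u ^ 2 + 3 * u := by nlinarith [sq_nonneg (u + 3 / 2)]
  have k8 : 0 < h ^ 2 + 3 + u ^ 2 - 3 * u := by nlinarith [sq_nonneg (u - 3 / 2)]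
  have e0 : 1 / (2 + u) + 1 / ((4 : ℕ) - (2 + u)) = 4 / (4 - u ^ 2) := by
    have : (4 : ℝ) - u ^ 2 = (2 + u) * (2 - u) := by ring
    rw [this]
    have a1 : (2 : ℝ) - u ≠ 0 := by linarith
    have a2 : ((4 : ℕ) : ℝ) - (2 + u) = 2 - u := by push_cast; ring
    rw [a2]
    field_simp
    ring
  have e1 := x8e_pair k1 k2
  have e2 := x8e_pair k3 k4
  have e3 := x8e_pair k5 k6
  have e4 := x8e_pair k7 k8
  have hL : Lex 4 (2 + u) h 0 = 3 * h * (4 / (4 - u ^ 2) + 2 * (h ^ 2 + u ^ 2) / ((h ^ 2 + u ^ 2) ^ 2 - u ^ 2) +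
      2 * (h ^ 2 + 1 + u ^ 2) / ((h ^ 2 + 1 + u ^ 2) ^ 2 - u ^ 2) +
      2 * (h ^ 2 + 2 + u ^ 2) / ((h ^ 2 + 2 + u ^ 2) ^ 2 - (3 * u) ^ 2) +
      2 * (h ^ 2 + 3 + u ^ 2) / ((h ^ 2 + 3 + u ^ 2) ^ 2 - (3 * u) ^ 2)) := by
    rw [← e1, ← e2, ← e3, ← e4, ← e0]
    unfold Lex
    simp only [Finset.sum_range_succ, Finset.sum_range_zero]
    have c1 : dA (((0 : ℕ) : ℝ) + 1 / 2 - (2 + u)) h 0 = h ^ 2 + 2 + u ^ 2 + 3 * u := by unfold dA; push_cast; ring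
    have c2 : dA (((1 : ℕ) : ℝ) + 1 / 2 - (2 + u)) h 0 = h ^ 2 + u ^ 2 + u := by unfold dA; push_cast; ring
    have c3 : dA (((2 : ℕ) : ℝ) + 1 / 2 - (2 + u)) h 0 = h ^ 2 + u ^ 2 - u := by unfold dA; push_cast; ring
    have c4 : dA (((3 : ℕ) : ℝ) + 1 / 2 - (2 + u)) h 0 = h ^ 2 + 2 + u ^ 2 - 3 * u := by unfold dA; push_cast; ring
    have c5 : dB (((0 : ℕ) : ℝ) + 1 / 2 - (2 + u)) h 0 = h ^ 2 + 3 + u ^ 2 + 3 * u := by unfold dB; push_cast; ring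
    have c6 : dB (((1 : ℕ) : ℝ) + 1 / 2 - (2 + u)) h 0 = h ^ 2 + 1 + u ^ 2 + u := by unfold dB; push_cast; ring
    have c7 : dB (((2 : ℕ) : ℝ) + 1 / 2 - (2 + u)) h 0 = h ^ 2 + 1 + u ^ 2 - u := by unfold dB; push_cast; ring
    have c8 : dB (((3 : ℕ) : ℝ) + 1 / 2 - (2 + u)) h 0 = h ^ 2 + 3 + u ^ 2 - 3 * u := by unfold dB; push_cast; ring
    rw [c1, c2, c3, c4, c5, c6, c7, c8]
    ring
  rw [hL]
  have f1 : 0 < 4 - u ^ 2 := by linarith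
  have f2 : 0 < (h ^ 2 + u ^ 2) ^ 2 - u ^ 2 := by
    have : (h ^ 2 + u ^ 2) ^ 2 - u ^ 2 = (h ^ 2 + u ^ 2 + u) * (h ^ 2 + u ^ 2 - u) := by ring
    rw [this]; positivity
  have f3 : 0 < (h ^ 2 + 1 + u ^ 2) ^ 2 - u ^ 2 := by
    have : (h ^ 2 + 1 + u ^ 2) ^ 2 - u ^ 2 = (h ^ 2 + 1 + u ^ 2 + u) * (h ^ 2 + 1 + u ^ 2 - u) := by ring
    rw [this]; positivity
  have f4 : 0 < (h ^ 2 + 2 + u ^ 2) ^ 2 - (3 * u) ^ 2 := by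
    have : (h ^ 2 + 2 + u ^ 2) ^ 2 - (3 * u) ^ 2 = (h ^ 2 + 2 + u ^ 2 + 3 * u) * (h ^ 2 + 2 + u ^ 2 - 3 * u) := by ring
    rw [this]; positivity
  have f5 : 0 < (h ^ 2 + 3 + u ^ 2) ^ 2 - (3 * u) ^ 2 := by
    have : (h ^ 2 + 3 + u ^ 2) ^ 2 - (3 * u) ^ 2 = (h ^ 2 + 3 + u ^ 2 + 3 * u) * (h ^ 2 + 3 + u ^ 2 - 3 * u) := by ring
    rw [this]; positivity
  apply x8e_frac5 f1 f2 f3 f4 f5
  have hp := x8eE_pos (u ^ 2) h hs0 hs4.le hlo hhi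
  simp only [x8eE, x8eD, x8eD1, x8eL, PE.eval] at hp
  have g4 : (h ^ 2 + 2 + u ^ 2) ^ 2 - (3 * u) ^ 2 = (h ^ 2 + 2 + u ^ 2) ^ 2 - 9 * u ^ 2 := by ring
  have g5 : (h ^ 2 + 3 + u ^ 2) ^ 2 - (3 * u) ^ 2 = (h ^ 2 + 3 + u ^ 2) ^ 2 - 9 * u ^ 2 := by ring
  rw [g4, g5]
  norm_num at hp ⊢
  linarith

end Pool.Agent.Lib.MP_af06f6_co
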