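import Mathlib
import Pool.Agent.Lib.MP_af06f6_co.X.Stm
import Pool.Agent.Lib.MP_af06f6_co.Tools.PBernMain

/-!
# MP_af06f6_co, exact case, pieces X8f, X8g
-/

open Set AF06.Bern AF06.PB

namespace Pool.Agent.Lib.MP_af06f6_co

private lemma x8f_frac5 {K c a1 a2 a3 a4 a5 D1 D2 D3 D4 D5 : ℝ} (h1 : 0 < D1) (h2 : 0 < D2) (h3 : 0 < D3) (h4 : 0 < D4)
    (h5 : 0 < D5) (h : 0 < c * (a1 * (D2 * D3 * D4 * D5) + a2 * (D1 * D3 * D4 * D5) + a3 * (D1 * D2 * D4 * D5) +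
      a4 * (D1 * D2 * D3 * D5) + a5 * (D1 * D2 * D3 * D4)) - K * (D1 * D2 * D3 * D4 * D5)) :
    K < c * (a1 / D1 + a2 / D2 + a3 / D3 + a4 / D4 + a5 / D5) := by
  have e : c * (a1 / D1 + a2 / D2 + a3 / D3 + a4 / D4 + a5 / D5) =
      (c * (a1 * (D2 * D3 * D4 * D5) + a2 * (D1 * D3 * D4 * D5) + a3 * (D1 * D2 * D4 * D5) +
      a4 * (D1 * D2 * D3 * D5) + a5 * (D1 * D2 * D3 * D4))) / (D1 * D2 * D3 * D4 * D5) := by
    field_simp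
  rw [e, lt_div_iff₀ (by positivity)]
  linarith

/-! ### X8g: variables `x = u`, `y = h` -/

/-- `H + k/4 + u` -/
private def x8gL (k : ℤ) : PE := .add (.add (.pow .y 2) (.q k 4)) .x
private def x8gD1 : PE := .sub (.q 9 4) .x
private def x8gD (k : ℤ) : PE := .sub (.pow (x8gL k) 2) (.mul (.q 4 1) .x)

private def x8gE : PE :=
  .sub (.mul (.mul (.q 3 1) .y)
    (.add (.add (.add (.add
      (.mul (.q 3 1) (.mul (.mul (.mul (x8gL (-1)) (x8gL 3)) (x8gD 3)) (x8gD 7)))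
      (.mul (.q 1 1) (.mul (.mul (.mul x8gD1 (x8gL 3)) (x8gD 3)) (x8gD 7))))
      (.mul (.q 1 1) (.mul (.mul (.mul x8gD1 (x8gL (-1))) (x8gD 3)) (x8gD 7))))
      (.mul (.mul (.q 2 1) (x8gL 3)) (.mul (.mul (.mul x8gD1 (x8gL (-1))) (x8gL 3)) (x8gD 7))))
      (.mul (.mul (.q 2 1) (x8gL 7)) (.mul (.mul (.mul x8gD1 (x8gL (-1))) (x8gL 3)) (x8gD 3)))))
    (.mul (.q 1497 100) (.mul (.mul (.mul (.mul x8gD1 (x8gL (-1))) (x8gL 3)) (x8gD 3)) (x8gD 7)))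

private theorem x8gE_pos (s h : ℝ) (h1 : 0 ≤ s) (h2 : s ≤ 9 / 4) (h3 : 43 / 50 ≤ h) (h4 : h ≤ 11620 / 10000) :
    0 < x8gE.eval s h := by
  have := pos_of_kpos x8gE 0 9 4 8600 11620 10000 24 (by decide +kernel) s h (by simpa using h1)
    (by norm_num; linarith) (by norm_num; linarith) (by norm_num; linarith)
  exact this

/-! ### X8f: variables `x = u`, `y = H` -/

/-- `H + k/4 + u` -/
private def x8fL (k : ℤ) : PE := .add (.add .y (.q k 4)) .x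
private def x8fl (k : ℤ) : PE := .add .y (.q k 4)
private def x8fD1 : PE := .sub (.q 9 4) .x
private def x8fD2 : PE := .mul (x8fl (-1)) (x8fL (-1))
private def x8fD3 : PE := .mul (x8fl 3) (x8fL 3)
private def x8fD4 : PE := .mul (x8fl 3) (.sub (.pow (x8fL 3) 2) (.mul (.q 4 1) .x))
private def x8fD5 : PE := .mul (x8fl 7) (.sub (.pow (x8fL 7) 2) (.mul (.q 4 1) .x))

private def x8fE : PE :=
  (.sub (.sub (.sub (.sub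
      (.mul (.q 4 3) (.mul (.mul (.mul x8fD2 x8fD3) x8fD4) x8fD5))
      (.mul (.q 1 1) (.mul (.mul (.mul x8fD1 x8fD3) x8fD4) x8fD5)))
      (.mul (.q 1 1) (.mul (.mul (.mul x8fD1 x8fD2) x8fD4) x8fD5)))
      (.mul (.mul (.q 2 1) (.sub (x8fL 3) (.q 4 1))) (.mul (.mul (.mul x8fD1 x8fD2) x8fD3) x8fD5)))
      (.mul (.mul (.q 2 1) (.sub (x8fL 7) (.q 4 1))) (.mul (.mul (.mul x8fD1 x8fD2) x8fD3) x8fD4)))

private theorem x8fE_pos (s h : ℝ) (h1 : 0 ≤ s) (h2 : s ≤ 9 / 4) (h3 : 135 / 100 ≤ h) (h4 : h ≤ 3) :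
    0 < x8fE.eval s h := by
  have := pos_of_kpos x8fE 0 9 4 135 300 100 24 (by decide +kernel) s h (by simpa using h1)
    (by norm_num; linarith) (by norm_num; linarith) (by norm_num; linarith)
  exact this

/-! ### The length for `w = 3` -/

private lemma x8f_pair {a b : ℝ} (h1 : 0 < a + b) (h2 : 0 < a - b) : 1 / (a + b) + 1 / (a - b) = 2 * a / (a ^ 2 - b ^ 2) := by
  have e : a ^ 2 - b ^ 2 = (a + b) * (a - b) := by ring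
  rw [e]
  field_simp
  ring

private lemma x8f_len {u h : ℝ} (h1 : 0 < 3 / 2 + u) (h2 : 0 < 3 / 2 - u) (k1 : 0 < h ^ 2 + 3 / 4 + u ^ 2 + 2 * u)
    (k2 : 0 < h ^ 2 + 3 / 4 + u ^ 2 - 2 * u) (k3 : 0 < h ^ 2 + 7 / 4 + u ^ 2 + 2 * u) (k4 : 0 < h ^ 2 + 7 / 4 + u ^ 2 - 2 * u) :
    Lex 3 (3 / 2 + u) h 0 = 3 * h * (3 / (9 / 4 - u ^ 2) + 1 / (h ^ 2 + -1 / 4 + u ^ 2) + 1 / (h ^ 2 + 3 / 4 + u ^ 2) +
      2 * (h ^ 2 + 3 / 4 + u ^ 2) / ((h ^ 2 + 3 / 4 + u ^ 2) ^ 2 - 4 * u ^ 2) +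
      2 * (h ^ 2 + 7 / 4 + u ^ 2) / ((h ^ 2 + 7 / 4 + u ^ 2) ^ 2 - 4 * u ^ 2)) := by
  have e0 : 1 / (3 / 2 + u) + 1 / (((3 : ℕ) : ℝ) - (3 / 2 + u)) = 3 / (9 / 4 - u ^ 2) := by
    have a3 : (9 : ℝ) / 4 - u ^ 2 = (3 / 2 + u) * (3 / 2 - u) := by ring
    have a2 : ((3 : ℕ) : ℝ) - (3 / 2 + u) = 3 / 2 - u := by push_cast; ring
    rw [a2, a3, div_add_div _ _ h1.ne' h2.ne']
    congr 1
    ring
  have e1 := x8f_pair k1 k2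
  have e2 := x8f_pair k3 k4
  have g1 : (2 * u) ^ 2 = 4 * u ^ 2 := by ring
  rw [g1] at e1 e2
  rw [← e1, ← e2, ← e0]
  unfold Lex
  simp only [Finset.sum_range_succ, Finset.sum_range_zero]
  have c1 : dA (((0 : ℕ) : ℝ) + 1 / 2 - (3 / 2 + u)) h 0 = h ^ 2 + 3 / 4 + u ^ 2 + 2 * u := by unfold dA; push_cast; ring
  have c2 : dA (((1 : ℕ) : ℝ) + 1 / 2 - (3 / 2 + u)) h 0 = h ^ 2 + -1 / 4 + u ^ 2 := by unfold dA; push_cast; ring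
  have c3 : dA (((2 : ℕ) : ℝ) + 1 / 2 - (3 / 2 + u)) h 0 = h ^ 2 + 3 / 4 + u ^ 2 - 2 * u := by unfold dA; push_cast; ring
  have c4 : dB (((0 : ℕ) : ℝ) + 1 / 2 - (3 / 2 + u)) h 0 = h ^ 2 + 7 / 4 + u ^ 2 + 2 * u := by unfold dB; push_cast; ring
  have c5 : dB (((1 : ℕ) : ℝ) + 1 / 2 - (3 / 2 + u)) h 0 = h ^ 2 + 3 / 4 + u ^ 2 := by unfold dB; push_cast; ring
  have c6 : dB (((2 : ℕ) : ℝ) + 1 / 2 - (3 / 2 + u)) h 0 = h ^ 2 + 7 / 4 + u ^ 2 - 2 * u := by unfold dB; push_cast; ring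
  rw [c1, c2, c3, c4, c5, c6]
  ring

private lemma x8f_t {a u : ℝ} (ha : 0 < a) (hu : 0 < a + u) : 1 / (a + u) = 1 / a + u * (-1 / (a * (a + u))) := by
  field_simp
  ring

theorem pf_X8g : Stm_X8g := by
  intro x0 h hx0 hx3 hh h1 h2
  obtain ⟨u, rfl⟩ : ∃ u, x0 = 3 / 2 + u := ⟨x0 - 3 / 2, by ring⟩
  have hs4 : u ^ 2 < 9 / 4 := by nlinarith
  have hs0 : 0 ≤ u ^ 2 := sq_nonneg u
  have hlo : 43 / 50 ≤ h := by nlinarith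
  have hhi : h ≤ 11620 / 10000 := by nlinarith
  have k1 : 0 < h ^ 2 + 3 / 4 + u ^ 2 + 2 * u := by nlinarith [sq_nonneg (u + 1)]
  have k2 : 0 < h ^ 2 + 3 / 4 + u ^ 2 - 2 * u := by nlinarith [sq_nonneg (u - 1)]
  have k3 : 0 < h ^ 2 + 7 / 4 + u ^ 2 + 2 * u := by linarith
  have k4 : 0 < h ^ 2 + 7 / 4 + u ^ 2 - 2 * u := by linarith
  rw [x8f_len (by linarith) (by linarith) k1 k2 k3 k4]
  have f1 : 0 < 9 / 4 - u ^ 2 := by linarith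
  have f2 : 0 < h ^ 2 + -1 / 4 + u ^ 2 := by linarith
  have f3 : 0 < h ^ 2 + 3 / 4 + u ^ 2 := by linarith
  have f4 : 0 < (h ^ 2 + 3 / 4 + u ^ 2) ^ 2 - 4 * u ^ 2 := by
    have : (h ^ 2 + 3 / 4 + u ^ 2) ^ 2 - 4 * u ^ 2 = (h ^ 2 + 3 / 4 + u ^ 2 + 2 * u) * (h ^ 2 + 3 / 4 + u ^ 2 - 2 * u) := by ring
    rw [this]; positivity
  have f5 : 0 < (h ^ 2 + 7 / 4 + u ^ 2) ^ 2 - 4 * u ^ 2 := by
    have : (h ^ 2 + 7 / 4 + u ^ 2) ^ 2 - 4 * u ^ 2 = (h ^ 2 + 7 / 4 + u ^ 2 + 2 * u) * (h ^ 2 + 7 / 4 + u ^ 2 - 2 * u) := by ring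
    rw [this]; positivity
  refine (x8f_frac5 f1 f2 f3 f4 f5 ?_).le
  have hp := x8gE_pos (u ^ 2) h hs0 hs4.le hlo hhi
  simp only [x8gE, x8gD, x8gD1, x8gL, PE.eval] at hp
  norm_num at hp ⊢
  linarith

theorem pf_X8f : Stm_X8f := by
  intro x0 h hx0 hx3 hh h1 h2
  obtain ⟨v, rfl⟩ : ∃ u, x0 = 3 / 2 + u := ⟨x0 - 3 / 2, by ring⟩
  have hs4 : v ^ 2 < 9 / 4 := by nlinarith
  have hs0 : 0 ≤ v ^ 2 := sq_nonneg v
  have k1 : 0 < h ^ 2 + 3 / 4 + v ^ 2 + 2 * v := by nlinarith [sq_nonneg (v + 1)]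
  have k2 : 0 < h ^ 2 + 3 / 4 + v ^ 2 - 2 * v := by nlinarith [sq_nonneg (v - 1)]
  have k3 : 0 < h ^ 2 + 7 / 4 + v ^ 2 + 2 * v := by linarith
  have k4 : 0 < h ^ 2 + 7 / 4 + v ^ 2 - 2 * v := by linarith
  rw [x8f_len (by linarith) (by linarith) k1 k2 k3 k4]
  have f4 : 0 < (h ^ 2 + 3 / 4 + v ^ 2) ^ 2 - 4 * v ^ 2 := by
    have : (h ^ 2 + 3 / 4 + v ^ 2) ^ 2 - 4 * v ^ 2 = (h ^ 2 + 3 / 4 + v ^ 2 + 2 * v) * (h ^ 2 + 3 / 4 + v ^ 2 - 2 * v) := by ring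
    rw [this]; positivity
  have f5 : 0 < (h ^ 2 + 7 / 4 + v ^ 2) ^ 2 - 4 * v ^ 2 := by
    have : (h ^ 2 + 7 / 4 + v ^ 2) ^ 2 - 4 * v ^ 2 = (h ^ 2 + 7 / 4 + v ^ 2 + 2 * v) * (h ^ 2 + 7 / 4 + v ^ 2 - 2 * v) := by ring
    rw [this]; positivity
  have hF : FF (2 * h) = 3 * h * (4 / 3 + 1 / (h ^ 2 + -1 / 4) + 1 / (h ^ 2 + 3 / 4) + 2 / (h ^ 2 + 3 / 4) + 2 / (h ^ 2 + 7 / 4)) := by
    unfold FF
    have n1 : (h ^ 2 + -1 / 4) ≠ 0 := by linarith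
    have n2 : (h ^ 2 + 3 / 4) ≠ 0 := by linarith
    have n3 : (h ^ 2 + 7 / 4) ≠ 0 := by linarith
    have m1 : (2 * h) ^ 2 + 3 = 4 * (h ^ 2 + 3 / 4) := by ring
    have m2 : (2 * h) ^ 2 - 1 = 4 * (h ^ 2 + -1 / 4) := by ring
    have m3 : (2 * h) ^ 2 + 7 = 4 * (h ^ 2 + 7 / 4) := by ring
    rw [m1, m2, m3]
    field_simp
    ring
  rw [hF]
  generalize h ^ 2 = H at *
  generalize v ^ 2 = u at *
  have f1 : 0 < 9 / 4 - u := by linarith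
  have g2 : 0 < H + -1 / 4 := by linarith
  have g3 : 0 < H + 3 / 4 := by linarith
  have g7 : 0 < H + 7 / 4 := by linarith
  have g2u : 0 < H + -1 / 4 + u := by linarith
  have g3u : 0 < H + 3 / 4 + u := by linarith
  have f2 : 0 < (H + -1 / 4) * (H + -1 / 4 + u) := by positivity
  have f3 : 0 < (H + 3 / 4) * (H + 3 / 4 + u) := by positivity
  have f4' : 0 < (H + 3 / 4) * ((H + 3 / 4 + u) ^ 2 - 4 * u) := by positivity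
  have f5' : 0 < (H + 7 / 4) * ((H + 7 / 4 + u) ^ 2 - 4 * u) := by positivity
  have hT : 0 < 1 * (4 / 3 / (9 / 4 - u) + -1 / ((H + -1 / 4) * (H + -1 / 4 + u)) + -1 / ((H + 3 / 4) * (H + 3 / 4 + u)) +
      -(2 * (H + 3 / 4 + u - 4)) / ((H + 3 / 4) * ((H + 3 / 4 + u) ^ 2 - 4 * u)) +
      -(2 * (H + 7 / 4 + u - 4)) / ((H + 7 / 4) * ((H + 7 / 4 + u) ^ 2 - 4 * u))) := by
    apply x8f_frac5 f1 f2 f3 f4' f5'
    have hp := x8fE_pos u H hs0 hs4.le (by linarith) h2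
    simp only [x8fE, x8fD1, x8fD2, x8fD3, x8fD4, x8fD5, x8fL, x8fl, PE.eval] at hp
    norm_num at hp ⊢
    linarith
  have t1 : 3 / (9 / 4 - u) = 4 / 3 + u * (4 / 3 / (9 / 4 - u)) := by
    rw [← mul_div_assoc, div_eq_iff f1.ne', add_mul, div_mul_cancel₀ _ f1.ne']
    ring
  have t2 : 1 / (H + -1 / 4 + u) = 1 / (H + -1 / 4) + u * (-1 / ((H + -1 / 4) * (H + -1 / 4 + u))) :=
    x8f_t g2 g2u
  have t3 : 1 / (H + 3 / 4 + u) = 1 / (H + 3 / 4) + u * (-1 / ((H + 3 / 4) * (H + 3 / 4 + u))) :=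
    x8f_t g3 g3u
  have t4 : 2 * (H + 3 / 4 + u) / ((H + 3 / 4 + u) ^ 2 - 4 * u) = 2 / (H + 3 / 4) +
      u * (-(2 * (H + 3 / 4 + u - 4)) / ((H + 3 / 4) * ((H + 3 / 4 + u) ^ 2 - 4 * u))) := by
    have hne := f4.ne'
    have hne3 := g3.ne'
    rw [eq_comm, ← mul_div_assoc, div_add_div _ _ hne3 (mul_ne_zero hne3 hne), div_eq_div_iff (mul_ne_zero hne3 (mul_ne_zero hne3 hne)) hne]
    ring
  have t5 : 2 * (H + 7 / 4 + u) / ((H + 7 / 4 + u) ^ 2 - 4 * u) = 2 / (H + 7 / 4) +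
      u * (-(2 * (H + 7 / 4 + u - 4)) / ((H + 7 / 4) * ((H + 7 / 4 + u) ^ 2 - 4 * u))) := by
    have hne := f5.ne'
    have hne3 := g7.ne'
    rw [eq_comm, ← mul_div_assoc, div_add_div _ _ hne3 (mul_ne_zero hne3 hne), div_eq_div_iff (mul_ne_zero hne3 (mul_ne_zero hne3 hne)) hne]
    ring
  apply mul_le_mul_of_nonneg_left _ (by positivity)
  rw [t1, t2, t3, t4, t5]
  have := mul_nonneg hs0 hT.le
  nlinarith

end Pool.Agent.Lib.MP_af06f6_co
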