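import Mathlib
import Pool.Agent.Lib.MP_af06f6_co.X.Stm
import Pool.Agent.Lib.MP_af06f6_co.G.Swap

/-! Piece X1: the chain around an exact face. -/

open Set

namespace Pool.Agent.Lib.MP_af06f6_co

private theorem x1_K1 {V F : Finset E3} (hCf : Cfg V F (fun v f => inner ℝ v f = (1 : ℝ)) hx hx) {f₀ v : E3}
    (hf : f₀ ∈ F) (hv : v ∈ V) (hvf : inner ℝ v f₀ = (1 : ℝ))
    (h3 : (fat F (fun v f : E3 => inner ℝ v f = (1 : ℝ)) v).card = 3) :
    ∃ g g', g ≠ g' ∧ Adj F V g f₀ ∧ Adj F V g' f₀ ∧ Adj F V g g' ∧ inner ℝ v g = (1 : ℝ) ∧ inner ℝ v g' = (1 : ℝ) ∧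
      ∀ k ∈ F, inner ℝ v k = (1 : ℝ) → k = f₀ ∨ k = g ∨ k = g' := by
  classical
  obtain ⟨g, g', hne, hg⟩ := hCf.two v hv f₀ hf hvf
  obtain ⟨gF, gadj, gv⟩ := (hg g).mpr (Or.inl rfl)
  obtain ⟨gF', gadj', gv'⟩ := (hg g').mpr (Or.inr rfl)
  have hfat : fat F (fun v f : E3 => inner ℝ v f = (1 : ℝ)) v = {f₀, g, g'} := by
    symm
    apply Finset.eq_of_subset_of_card_le
    · intro k hk
      simp only [Finset.mem_insert, Finset.mem_singleton] at hk
      unfold fat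
      rw [Finset.mem_filter]
      rcases hk with rfl | rfl | rfl
      · exact ⟨hf, hvf⟩
      · exact ⟨gF, gv⟩
      · exact ⟨gF', gv'⟩
    · rw [h3, Finset.card_eq_three.mpr ⟨f₀, g, g', gadj.1, gadj'.1, hne, rfl⟩]
  have hall : ∀ k ∈ F, inner ℝ v k = (1 : ℝ) → k = f₀ ∨ k = g ∨ k = g' := by
    intro k hk hvk
    have : k ∈ fat F (fun v f : E3 => inner ℝ v f = (1 : ℝ)) v := by
      unfold fat
      rw [Finset.mem_filter]
      exact ⟨hk, hvk⟩
    rw [hfat] at this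
    simpa using this
  refine ⟨g, g', hne, Adj.symm ⟨hf, gF, gadj⟩, Adj.symm ⟨hf, gF', gadj'⟩, ?_, gv, gv', hall⟩
  obtain ⟨k, k', hkk, hk⟩ := hCf.two v hv g gF gv
  obtain ⟨kF, kadj, kv⟩ := (hk k).mpr (Or.inl rfl)
  obtain ⟨kF', kadj', kv'⟩ := (hk k').mpr (Or.inr rfl)
  rcases hall k kF kv with h | h | h
  · rcases hall k' kF' kv' with h' | h' | h'
    · exact absurd (h.trans h'.symm) hkk
    · exact absurd h'.symm kadj'.1
    · rw [← h']
      exact ⟨gF, kF', kadj'⟩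
  · exact absurd h.symm kadj.1
  · rw [← h]
    exact ⟨gF, kF, kadj⟩

private theorem x1_card {F : Finset E3} {v : E3} :
    (star F v).card = (fat F (fun v f : E3 => inner ℝ v f = (1 : ℝ)) v).card := by
  unfold star fat
  congr 1
  apply Finset.filter_congr
  intro g _
  rw [real_inner_comm]

private theorem x1_K4 {V F : Finset E3} (hCf : Cfg V F (fun v f => inner ℝ v f = (1 : ℝ)) hx hx) {f₀ f₁ v g : E3}
    (hE : ExactAt V F (fun v f => inner ℝ v f = (1 : ℝ)) f₀ f₁)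
    (hf : f₀ ∈ F) (hv : v ∈ V) (hvf : inner ℝ v f₀ = (1 : ℝ)) (hv1 : inner ℝ v f₁ ≠ (1 : ℝ))
    (hg : Adj F V g f₀) (hvg : inner ℝ v g = (1 : ℝ)) :
    ∃ g', Adj F V g' f₀ ∧ g' ≠ f₁ ∧ g' ≠ g ∧ Adj F V g g' ∧ inner ℝ v g' = (1 : ℝ) ∧ (star F v).card = 3 ∧
      ∀ k ∈ F, inner ℝ v k = (1 : ℝ) → k = f₀ ∨ k = g ∨ k = g' := by
  have h3 := hE.2 v hv hvf hv1
  obtain ⟨a, b, hab, ha, hb, hadj, hva, hvb, hall⟩ := x1_K1 hCf hf hv hvf h3
  have hs : (star F v).card = 3 := by rw [x1_card]; exact h3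
  rcases hall g hg.1 hvg with h | h | h
  · exact absurd h hg.2.2.1
  · subst h
    refine ⟨b, hb, ?_, hab.symm, hadj, hvb, hs, hall⟩
    rintro rfl
    exact hv1 hvb
  · subst h
    refine ⟨a, ha, ?_, hab, hadj.symm, hva, hs, fun k hk hvk => ?_⟩
    · rintro rfl
      exact hv1 hva
    · rcases hall k hk hvk with h | h | h
      · exact Or.inl h
      · exact Or.inr (Or.inr h)
      · exact Or.inr (Or.inl h)

private theorem x1_adj1 {V F : Finset E3} {f₀ f₁ g : E3}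
    (hE : ExactAt V F (fun v f => inner ℝ v f = (1 : ℝ)) f₀ f₁) (hf₁ : f₁ ∈ F)
    (hg : Adj F V g f₀) (hne : g ≠ f₁) : Adj F V g f₁ := by
  have h := hE.1 g hg.1 hne hg.symm.2.2
  exact Adj.symm ⟨hf₁, hg.1, h⟩

private theorem x1_K2 {V F : Finset E3} (hCf : Cfg V F (fun v f => inner ℝ v f = (1 : ℝ)) hx hx) {f₀ f₁ C : E3}
    (hE : ExactAt V F (fun v f => inner ℝ v f = (1 : ℝ)) f₀ f₁) (hadj : Adj F V f₀ f₁)
    (hC : C ∈ V) (h0 : inner ℝ C f₀ = (1 : ℝ)) (h1 : inner ℝ C f₁ = (1 : ℝ)) :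
    ∃ g, Adj F V g f₀ ∧ g ≠ f₁ ∧ inner ℝ C g = (1 : ℝ) ∧ (star F C).card = 3 := by
  obtain ⟨a, b, hab, h⟩ := hCf.two C hC f₀ hadj.1 h0
  obtain ⟨aF, aadj, aC⟩ := (h a).mpr (Or.inl rfl)
  obtain ⟨bF, badj, bC⟩ := (h b).mpr (Or.inr rfl)
  have key : ∃ g, g ∈ F ∧ AdjI V (fun v f : E3 => inner ℝ v f = (1 : ℝ)) f₀ g ∧ inner ℝ C g = (1 : ℝ) ∧ g ≠ f₁ := by
    rcases (h f₁).mp ⟨hadj.2.1, hadj.2.2, h1⟩ with h' | h'
    · exact ⟨b, bF, badj, bC, fun e => hab (e.trans h').symm⟩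
    · exact ⟨a, aF, aadj, aC, fun e => hab (e.trans h')⟩
  obtain ⟨g, gF, gadj, gC, gne⟩ := key
  have hg0 : Adj F V g f₀ := Adj.symm ⟨hadj.1, gF, gadj⟩
  refine ⟨g, hg0, gne, gC, ?_⟩
  rw [x1_card]
  have hg1 := (x1_adj1 hE hadj.2.1 hg0 gne).symm
  exact hCf.link C hC f₀ hadj.1 f₁ hadj.2.1 g gF h0 h1 gC hadj.2.2 hg1.2.2 gadj

theorem pf_X1 (hA3 : Stm_A3) (hD3 : Stm_D3) (hD4 : Stm_D4) : Stm_X1 := by
  intro V F hM hCf f₀ f₁ T e d hco hadj hE
  have hf0 := hadj.1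
  have hf1 := hadj.2.1
  obtain ⟨C, hCV, C', hCV', hCC, -, -, hC0, hC1, hC0', hC1', hD⟩ := hD4 V F hM f₀ f₁ T e d hco hadj
  have hh0 : 0 < hh f₀ f₁ := by
    have s0 : 0 < tl f₀ := tl_pos (hM.one_lt_F _ hf0)
    have s1 : 0 < tl f₁ := tl_pos (hM.one_lt_F _ hf1)
    unfold hh
    positivity
  have hDD : ∀ g, Adj F V g f₀ → g ≠ f₁ →
      xi d g ≤ hh f₀ f₁ / tl C ∧ - (hh f₀ f₁ / tl C') ≤ xi d g ∧
      (inner ℝ C g = (1 : ℝ) → xi d g = hh f₀ f₁ / tl C) ∧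
      (inner ℝ C' g = (1 : ℝ) → xi d g = - (hh f₀ f₁ / tl C')) :=
    fun g hg hne => hD g hg (x1_adj1 hE hf1 hg hne)
  have hD3' : ∀ g g', Adj F V g f₀ → g ≠ f₁ → Adj F V g' f₀ → g' ≠ f₁ → g ≠ g' →
      1 ≤ (xi d g - xi d g') ^ 2 ∧ (Adj F V g g' → (xi d g - xi d g') ^ 2 = 1) :=
    fun g g' hg hne hg' hne' hgg => hD3 V F hM f₀ f₁ T e d hco g g' hg (x1_adj1 hE hf1 hg hne) hg'
      (x1_adj1 hE hf1 hg' hne') hgg
  have hinj : ∀ g g', Adj F V g f₀ → g ≠ f₁ → Adj F V g' f₀ → g' ≠ f₁ → xi d g = xi d g' → g = g' := by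
    intro g g' hg hne hg' hne' he
    by_contra hgg
    have := (hD3' g g' hg hne hg' hne' hgg).1
    rw [he, sub_self] at this
    norm_num at this
  have hcom : ∀ v ∈ V, inner ℝ v f₀ = (1 : ℝ) → inner ℝ v f₁ = (1 : ℝ) → v = C ∨ v = C' := by
    intro v hv h0 h1
    by_contra hn
    push Not at hn
    exact hA3 V F hM.toDP f₀ hf0 f₁ hf1 hadj.2.2.1 v hv C hCV C' hCV' hn.1 hCC hn.2 h0 h1 hC0 hC1 hC0' hC1'
  -- three faces have at most one common vertex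
  have htri : ∀ p ∈ V, ∀ q ∈ V, p ≠ q → ∀ g ∈ F, ∀ g' ∈ F, g ≠ f₀ → g' ≠ f₀ → g ≠ g' →
      inner ℝ p f₀ = (1 : ℝ) → inner ℝ q f₀ = (1 : ℝ) → inner ℝ p g = (1 : ℝ) → inner ℝ q g = (1 : ℝ) →
      inner ℝ p g' = (1 : ℝ) → inner ℝ q g' = (1 : ℝ) → False := by
    intro p hp q hq hpq g hg g' hg' h1 h2 h3 p0 q0 pg qg pg' qg'
    refine hA3 F V hM.toDP.swap p hp q hq hpq f₀ hf0 g hg g' hg' h1.symm h3 h2.symm ?_ ?_ ?_ ?_ ?_ ?_
    · rw [real_inner_comm]; exact p0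
    · rw [real_inner_comm]; exact q0
    · rw [real_inner_comm]; exact pg
    · rw [real_inner_comm]; exact qg
    · rw [real_inner_comm]; exact pg'
    · rw [real_inner_comm]; exact qg'
  have hone : ∀ a b : ℝ, (a - b) ^ 2 = 1 → b = a + 1 ∨ b = a - 1 := by
    intro a b hab
    have : (a - b - 1) * (a - b + 1) = 0 := by linear_combination hab
    rcases mul_eq_zero.mp this with h | h
    · right; linarith
    · left; linarith
  have hUp : ∀ g, Adj F V g f₀ → g ≠ f₁ → inner ℝ C g ≠ (1 : ℝ) →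
      ∃ g' v, Adj F V g' f₀ ∧ g' ≠ f₁ ∧ xi d g' = xi d g + 1 ∧ Adj F V g g' ∧ v ∈ V ∧ inner ℝ v f₀ = (1 : ℝ) ∧
        inner ℝ v f₁ ≠ (1 : ℝ) ∧ inner ℝ v g = (1 : ℝ) ∧ inner ℝ v g' = (1 : ℝ) ∧ (star F v).card = 3 ∧
        ∀ k ∈ F, inner ℝ v k = (1 : ℝ) → k = f₀ ∨ k = g ∨ k = g' := by
    intro g hg hne hCg
    obtain ⟨-, -, -, p, hp, q, hq, hpq, pg, pf, qg, qf⟩ := id hg
    obtain ⟨hd1, hd2, hd3, hd4⟩ := hDD g hg hne
    by_cases hp1 : inner ℝ p f₁ = (1 : ℝ)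
    · rcases hcom p hp pf hp1 with h | h
      · rw [h] at pg
        exact absurd pg hCg
      · have hq1 : inner ℝ q f₁ ≠ (1 : ℝ) := by
          intro hq1
          rcases hcom q hq qf hq1 with h' | h'
          · rw [h'] at qg
            exact hCg qg
          · exact hpq (h.trans h'.symm)
        obtain ⟨g', hg', hne', hgg, ha, hqg', hs, hall⟩ := x1_K4 hCf hE hf0 hq qf hq1 hg qg
        rcases hone _ _ ((hD3' g g' hg hne hg' hne' hgg.symm).2 ha) with h1 | h1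
        · exact ⟨g', q, hg', hne', h1, ha, hq, qf, hq1, qg, hqg', hs, hall⟩
        · exfalso
          rw [h] at pg
          have h2 := hd4 pg
          have h3 := (hDD g' hg' hne').2.1
          linarith
    · obtain ⟨g', hg', hne', hgg, ha, hpg', hs, hall⟩ := x1_K4 hCf hE hf0 hp pf hp1 hg pg
      rcases hone _ _ ((hD3' g g' hg hne hg' hne' hgg.symm).2 ha) with h1 | h1
      · exact ⟨g', p, hg', hne', h1, ha, hp, pf, hp1, pg, hpg', hs, hall⟩
      · by_cases hq1 : inner ℝ q f₁ = (1 : ℝ)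
        · exfalso
          rcases hcom q hq qf hq1 with h' | h'
          · rw [h'] at qg
            exact hCg qg
          · rw [h'] at qg
            have h2 := hd4 qg
            have h3 := (hDD g' hg' hne').2.1
            linarith
        · obtain ⟨g'', hg'', hne'', hgg', ha', hqg'', hs', hall'⟩ := x1_K4 hCf hE hf0 hq qf hq1 hg qg
          rcases hone _ _ ((hD3' g g'' hg hne hg'' hne'' hgg'.symm).2 ha') with h2 | h2
          · exact ⟨g'', q, hg'', hne'', h2, ha', hq, qf, hq1, qg, hqg'', hs', hall'⟩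
          · exfalso
            have h3 : g'' = g' := hinj g'' g' hg'' hne'' hg' hne' (h2.trans h1.symm)
            rw [h3] at hqg''
            exact htri p hp q hq hpq g hg.1 g' hg'.1 hg.2.2.1 hg'.2.2.1 hgg.symm pf qf pg qg hpg' hqg''
  obtain ⟨gM, hgM, hgM1, hCM, hC3⟩ := x1_K2 hCf hE hadj hCV hC0 hC1
  obtain ⟨gm, hgm, hgm1, hCm, hC3'⟩ := x1_K2 hCf hE hadj hCV' hC0' hC1'
  have tC : 0 < tl C := tl_pos (hM.one_lt_V _ hCV)
  have tC' : 0 < tl C' := tl_pos (hM.one_lt_V _ hCV')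
  have hxM : xi d gM = hh f₀ f₁ / tl C := (hDD gM hgM hgM1).2.2.1 hCM
  have hxm : xi d gm = - (hh f₀ f₁ / tl C') := (hDD gm hgm hgm1).2.2.2 hCm
  have hMmax : ∀ g, Adj F V g f₀ → g ≠ f₁ → xi d g ≤ xi d gM := fun g hg hne => by
    rw [hxM]; exact (hDD g hg hne).1
  have hmmin : ∀ g, Adj F V g f₀ → g ≠ f₁ → xi d gm ≤ xi d g := fun g hg hne => by
    rw [hxm]; exact (hDD g hg hne).2.1
  have hClt : ∀ g, Adj F V g f₀ → g ≠ f₁ → xi d g < xi d gM → inner ℝ C g ≠ (1 : ℝ) := by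
    intro g hg hne hlt hCg
    have := (hDD g hg hne).2.2.1 hCg
    rw [this, hxM] at hlt
    exact lt_irrefl _ hlt
  have claim1 : ∀ n : ℕ, ∀ g, Adj F V g f₀ → g ≠ f₁ → xi d gM - xi d g ≤ n → ∃ j : ℕ, xi d gM = xi d g + j := by
    intro n
    induction n with
    | zero =>
      intro g hg hne hle
      refine ⟨0, ?_⟩
      have := hMmax g hg hne
      push_cast at hle ⊢
      linarith
    | succ n ih =>
      intro g hg hne hle
      rcases (hMmax g hg hne).eq_or_lt with h | h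
      · exact ⟨0, by push_cast; linarith⟩
      · obtain ⟨g', v, hg', hne', hx, -⟩ := hUp g hg hne (hClt g hg hne h)
        obtain ⟨j, hj⟩ := ih g' hg' hne' (by push_cast at hle ⊢; linarith)
        exact ⟨j + 1, by push_cast; linarith⟩
  obtain ⟨n, hn⟩ := exists_nat_ge (xi d gM - xi d gm)
  obtain ⟨w, hw⟩ := claim1 n gm hgm hgm1 hn
  have claim2 : ∀ i : ℕ, i ≤ w → ∃ g, Adj F V g f₀ ∧ g ≠ f₁ ∧ xi d g = xi d gm + i := by
    intro i
    induction i with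
    | zero =>
      intro _
      exact ⟨gm, hgm, hgm1, by push_cast; ring⟩
    | succ i ih =>
      intro hi
      obtain ⟨g, hg, hne, hx⟩ := ih (by omega)
      have hlt : xi d g < xi d gM := by
        have : ((i : ℕ) : ℝ) + 1 ≤ w := by exact_mod_cast hi
        linarith
      obtain ⟨g', v, hg', hne', hx', -⟩ := hUp g hg hne (hClt g hg hne hlt)
      exact ⟨g', hg', hne', by push_cast; linarith⟩
  choose! gs hgs using claim2
  have hA : ∀ i, i < w → ∃ v, v ∈ V ∧ inner ℝ v f₀ = (1 : ℝ) ∧ inner ℝ v f₁ ≠ (1 : ℝ) ∧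
      inner ℝ v (gs i) = (1 : ℝ) ∧ inner ℝ v (gs (i + 1)) = (1 : ℝ) ∧ (star F v).card = 3 ∧
      Adj F V (gs i) (gs (i + 1)) ∧ ∀ k ∈ F, inner ℝ v k = (1 : ℝ) → k = f₀ ∨ k = gs i ∨ k = gs (i + 1) := by
    intro i hi
    obtain ⟨hg, hne, hx⟩ := hgs i hi.le
    obtain ⟨hg1, hne1, hx1⟩ := hgs (i + 1) hi
    have hlt : xi d (gs i) < xi d gM := by
      have : ((i : ℕ) : ℝ) + 1 ≤ w := by exact_mod_cast hi
      linarith
    obtain ⟨g', v, hg', hne', hx', ha, hv, hv0, hv1, hvg, hvg', hs, hall⟩ := hUp _ hg hne (hClt _ hg hne hlt)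
    have he : g' = gs (i + 1) := by
      refine hinj _ _ hg' hne' hg1 hne1 ?_
      rw [hx', hx1, hx]
      push_cast
      ring
    rw [he] at ha hvg' hall
    exact ⟨v, hv, hv0, hv1, hvg, hvg', hs, ha, hall⟩
  choose! A hA using hA
  have hgw : gs w = gM := by
    obtain ⟨hg, hne, hx⟩ := hgs w le_rfl
    exact hinj _ _ hg hne hgM hgM1 (hx.trans hw.symm)
  have hg0 : gs 0 = gm := by
    obtain ⟨hg, hne, hx⟩ := hgs 0 (Nat.zero_le _)
    refine hinj _ _ hg hne hgm hgm1 ?_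
    rw [hx]
    push_cast
    ring
  have hx0 : 0 < hh f₀ f₁ / tl C' := by positivity
  have hxC : 0 < hh f₀ f₁ / tl C := by positivity
  have hwx : (w : ℝ) - hh f₀ f₁ / tl C' = hh f₀ f₁ / tl C := by
    rw [← hxM, hw, hxm]
    ring
  have hsinj : ∀ i ≤ w, ∀ j ≤ w, gs i = gs j → i = j := by
    intro i hi j hj he
    have h1 := (hgs i hi).2.2
    have h2 := (hgs j hj).2.2
    rw [he] at h1
    have : (i : ℝ) = j := by linarith
    exact_mod_cast this
  refine ⟨w, hh f₀ f₁ / tl C', gs, A, C, C', ?_⟩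
  refine ⟨?_, hx0, by linarith, fun i hi => (hgs i hi).1, fun i hi => x1_adj1 hE hf1 (hgs i hi).1 (hgs i hi).2.1,
    fun i hi => ?_, fun g hg hne => ?_, fun i hi => (hA i hi).2.2.2.2.2.2.1,
    fun i hi => ⟨(hA i hi).1, (hA i hi).2.1, (hA i hi).2.2.1, (hA i hi).2.2.2.1, (hA i hi).2.2.2.2.1,
      (hA i hi).2.2.2.2.2.1⟩, ?_, ?_, ?_, hCC, ?_⟩
  · by_contra h
    have : w = 0 := by omega
    rw [this] at hwx
    push_cast at hwx
    linarith
  · rw [(hgs i hi).2.2, hxm]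
    ring
  · obtain ⟨n, hn⟩ := exists_nat_ge (xi d gM - xi d g)
    obtain ⟨j, hj⟩ := claim1 n g hg hne hn
    have hjw : j ≤ w := by
      have h1 := hmmin g hg hne
      have : (j : ℝ) ≤ w := by linarith
      exact_mod_cast this
    refine ⟨w - j, Nat.sub_le _ _, ?_⟩
    obtain ⟨h1, h2, h3⟩ := hgs (w - j) (Nat.sub_le _ _)
    refine hinj _ _ hg hne h1 h2 ?_
    rw [h3, Nat.cast_sub hjw]
    linarith
  · -- injectivity of A
    have key : ∀ i < w, ∀ j < w, i < j → A i ≠ A j := by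
      intro i hi j hj hij he
      have h1 := (hA j hj).2.2.2.2.1
      rw [← he] at h1
      rcases (hA i hi).2.2.2.2.2.2.2 _ (hgs (j + 1) hj).1.1 h1 with h | h | h
      · exact (hgs (j + 1) hj).1.2.2.1 h
      · have := hsinj (j + 1) hj i hi.le h
        omega
      · have := hsinj (j + 1) hj (i + 1) hi h
        omega
    intro i hi j hj he
    rcases lt_trichotomy i j with h | h | h
    · exact absurd he (key i hi j hj h)
    · exact h
    · exact absurd he.symm (key j hj i hi h)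
  · refine ⟨hCV, hC0, hC1, by rw [hgw]; exact hCM, hC3, ?_⟩
    rw [hwx]
    field_simp
  · refine ⟨hCV', hC0', hC1', by rw [hg0]; exact hCm, hC3', ?_⟩
    field_simp
  · intro v hv hv0
    by_cases hv1 : inner ℝ v f₁ = (1 : ℝ)
    · rcases hcom v hv hv0 hv1 with h | h
      · exact Or.inl h
      · exact Or.inr (Or.inl h)
    · refine Or.inr (Or.inr ?_)
      obtain ⟨a, b, hab, ha, hb, hadj', hva, hvb, hall⟩ := x1_K1 hCf hf0 hv hv0 (hE.2 v hv hv0 hv1)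
      have ha1 : a ≠ f₁ := by rintro rfl; exact hv1 hva
      have hb1 : b ≠ f₁ := by rintro rfl; exact hv1 hvb
      -- the lower one of the two
      have main : ∀ a b : E3, Adj F V a f₀ → Adj F V b f₀ → a ≠ f₁ → b ≠ f₁ → inner ℝ v a = (1 : ℝ) →
          inner ℝ v b = (1 : ℝ) → xi d b = xi d a + 1 → ∃ i < w, v = A i := by
        intro a b ha hb ha1 hb1 hva hvb hx
        obtain ⟨n, hn⟩ := exists_nat_ge (xi d gM - xi d b)
        obtain ⟨j, hj⟩ := claim1 n b hb hb1 hn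
        have hjw : j + 1 ≤ w := by
          have h1 := hmmin a ha ha1
          have : (j : ℝ) + 1 ≤ w := by linarith
          exact_mod_cast this
        have hi : w - (j + 1) < w := by omega
        refine ⟨w - (j + 1), hi, ?_⟩
        obtain ⟨h1, h2, h3⟩ := hgs (w - (j + 1)) (Nat.sub_le _ _)
        obtain ⟨h1', h2', h3'⟩ := hgs (w - (j + 1) + 1) hi
        have ea : a = gs (w - (j + 1)) := by
          refine hinj _ _ ha ha1 h1 h2 ?_
          rw [h3, Nat.cast_sub hjw]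
          push_cast
          linarith
        have eb : b = gs (w - (j + 1) + 1) := by
          refine hinj _ _ hb hb1 h1' h2' ?_
          rw [h3']
          push_cast
          rw [Nat.cast_sub hjw]
          push_cast
          linarith
        by_contra hne
        obtain ⟨k1, k2, k3, k4, k5, k6, k7, k8⟩ := hA _ hi
        rw [ea] at hva
        rw [eb] at hvb
        exact htri v hv _ k1 hne _ h1.1 _ h1'.1 h1.2.2.1 h1'.2.2.1 k7.2.2.1 hv0 k2 hva k4 hvb k5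
      rcases hone _ _ ((hD3' a b ha ha1 hb hb1 hab).2 hadj') with h | h
      · exact main a b ha hb ha1 hb1 hva hvb h
      · exact main b a hb ha hb1 ha1 hvb hva (by linarith)

end Pool.Agent.Lib.MP_af06f6_co
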