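import Mathlib
import Pool.Agent.Lib.MP_af06f6_co.X.Stm

/-!
# MP_af06f6_co, exact case, piece X9 (summary)
-/

namespace Pool.Agent.Lib.MP_af06f6_co

private theorem x9_hx_sq {f : E3} (h : 1 < ‖f‖) : hx f ^ 2 = (‖f‖ - 1) / (‖f‖ + 1) := by
  unfold hx
  rw [Real.sq_sqrt]
  exact div_nonneg (by linarith) (by linarith)

private theorem x9_hx_nonneg (f : E3) : 0 ≤ hx f := Real.sqrt_nonneg _

private theorem x9_tl_sq {f : E3} (h : 1 < ‖f‖) : tl f ^ 2 = ‖f‖ ^ 2 - 1 := by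
  unfold tl
  rw [Real.sq_sqrt]
  nlinarith

private theorem x9_tl_pos {f : E3} (h : 1 < ‖f‖) : 0 < tl f := by
  unfold tl
  apply Real.sqrt_pos.2
  nlinarith

theorem pf_X9 (hX0 : Stm_X0) (hD1 : Stm_D1) (hX1 : Stm_X1) (hX7 : Stm_X7) (hX8 : Stm_X8) :
    Stm_X9 := by
  intro V F hM hC f₀ f₁ hadj hz0 hz1 hmax hex
  have hf0 : f₀ ∈ F := hadj.1
  have hf1 : f₁ ∈ F := hadj.2.1
  have n0 : 1 < ‖f₀‖ := hM.one_lt_F f₀ hf0
  have n1 : 1 < ‖f₁‖ := hM.one_lt_F f₁ hf1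
  have t0 := x9_tl_pos n0
  have t1 := x9_tl_pos n1
  have s0 := x9_tl_sq n0
  have s1 := x9_tl_sq n1
  -- norm bounds
  have b0 : (9.565 : ℝ) ≤ ‖f₀‖ := by
    have h1 : ((14752 : ℝ) / 16384) ^ 2 ≤ hx f₀ ^ 2 := pow_le_pow_left₀ (by norm_num) hz0 2
    rw [x9_hx_sq n0, le_div_iff₀ (by linarith)] at h1
    norm_num at h1 ⊢
    linarith
  have b1 : ‖f₁‖ ≤ 2 := by
    have h1 : hx f₁ ^ 2 ≤ ((9459 : ℝ) / 16384) ^ 2 := pow_le_pow_left₀ (x9_hx_nonneg _) hz1 2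
    rw [x9_hx_sq n1, div_le_iff₀ (by linarith)] at h1
    norm_num at h1 ⊢
    linarith
  have c0 : (9.51 : ℝ) ≤ tl f₀ := by
    have : (9.51 : ℝ) ^ 2 ≤ tl f₀ ^ 2 := by
      rw [s0]
      nlinarith
    exact (pow_le_pow_iff_left₀ (by norm_num) t0.le (by norm_num)).1 this
  have c1 : tl f₁ ^ 2 ≤ 3 := by
    rw [s1]
    nlinarith
  -- `h` and `y`
  have hs : 0 < tl f₀ + tl f₁ := by linarith
  have hhpos : 0 < hh f₀ f₁ := div_pos (mul_pos t0 t1) hs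
  have hypos : 0 < yy f₀ f₁ := div_pos t1 hs
  have hhy : hh f₀ f₁ = tl f₀ * yy f₀ f₁ := by
    unfold hh yy
    ring
  have hy1 : yy f₀ f₁ ≤ 0.1052 * hh f₀ f₁ := by
    rw [hhy]
    nlinarith
  have hh1 : hh f₀ f₁ ≤ tl f₁ := by
    unfold hh
    rw [div_le_iff₀ hs]
    nlinarith [mul_pos t0 t1, mul_pos t1 t1]
  have hh3 : hh f₀ f₁ ^ 2 ≤ 3 := by
    nlinarith
  have htl : ∀ g ∈ F, g ≠ f₀ → tl g ≤ tl f₁ := by
    intro g hg hg0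
    have ng : 1 < ‖g‖ := hM.one_lt_F g hg
    have h1 : hx g ^ 2 ≤ hx f₁ ^ 2 := pow_le_pow_left₀ (x9_hx_nonneg _) (hmax g hg hg0) 2
    rw [x9_hx_sq ng, x9_hx_sq n1, div_le_div_iff₀ (by linarith) (by linarith)] at h1
    have h2 : ‖g‖ ≤ ‖f₁‖ := by nlinarith
    unfold tl
    apply Real.sqrt_le_sqrt
    nlinarith
  have h34 := hX0 V F hM hC f₀ f₁ hadj (Or.inl hex) htl
  have hy2 : yy f₀ f₁ ^ 2 ≤ (0.1052 * hh f₀ f₁) ^ 2 := pow_le_pow_left₀ hypos.le hy1 2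
  have h74 : 0.74 ≤ hh f₀ f₁ ^ 2 := by
    norm_num at hy2 ⊢
    nlinarith
  have hy183 : yy f₀ f₁ ≤ 0.183 := by
    have : hh f₀ f₁ ≤ 1.7321 := by
      by_contra hcon
      push Not at hcon
      nlinarith
    norm_num at hy1 this ⊢
    linarith
  obtain ⟨T, e, d, hco⟩ := hD1 V F hM f₀ f₁ hadj
  obtain ⟨w, x0, gs, A, C, C', hch⟩ := hX1 V F hM hC f₀ f₁ T e d hco hadj hex
  have hLe := hX7 V F hM hC f₀ f₁ T e d hco hadj h74 hy183 w x0 gs A C C' hch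
  rcases hX8 w x0 (hh f₀ f₁) (yy f₀ f₁) hch.w1 hch.x0pos hch.x0lt hhpos hypos hy1 hh3 h34 with
    ⟨w', hw', hF⟩ | h
  · exact Or.inl ⟨w', hw', hF.trans_le hLe⟩
  · right
    have : (14.966 : ℝ) ≤ 14.97 := by norm_num
    linarith

end Pool.Agent.Lib.MP_af06f6_co
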